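import Pool.Agent.V8H40.SJ.Ord

/-!
# The functional `J` is partial computable and universal
-/

set_option autoImplicit false

namespace Pool.Agent.V8H40.SJ

open Nat.Partrec (Code)
open Pool.Agent.Helper743 (RecT recT_pre)

theorem recT_seg (X : Set ℕ) :
    RecT {(chi X : ℕ →. ℕ)} (fun n => Encodable.encode (seg X n)) :=
  recT_pre (Pool.Agent.Helper743.TR.refl (chi X))

/-- the jump function is partial computable in the oracle -/
theorem J_recursiveIn (X : Set ℕ) : Nat.RecursiveIn {(chi X : ℕ →. ℕ)} (J X) := by
  -- the attempt at `⟨n, p⟩`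
  let q : ℕ → Option ℕ := fun z => Code.evaln z.unpair.2.unpair.1
    (Denumerable.ofNat Code z.unpair.1)
    (Nat.pair (Encodable.encode (seg X z.unpair.2.unpair.2)) z.unpair.1)
  have hq : RecT {(chi X : ℕ →. ℕ)} (fun z => Encodable.encode (q z)) := by
    have h1 : Computable (fun z : ℕ => Encodable.encode
        (Code.evaln z.unpair.1.unpair.2.unpair.1 (Denumerable.ofNat Code z.unpair.1.unpair.1)
          (Nat.pair z.unpair.2 z.unpair.1.unpair.1))) := by
      have c1 : Primrec fun z : ℕ => z.unpair.1.unpair.2.unpair.1 :=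
        Primrec.fst.comp (Primrec.unpair.comp (Primrec.snd.comp (Primrec.unpair.comp
          (Primrec.fst.comp Primrec.unpair))))
      have c2 : Primrec fun z : ℕ => z.unpair.1.unpair.1 :=
        Primrec.fst.comp (Primrec.unpair.comp (Primrec.fst.comp Primrec.unpair))
      have c3 : Primrec fun z : ℕ => z.unpair.2 := Primrec.snd.comp Primrec.unpair
      exact (Primrec.encode.comp (Code.primrec_evaln.comp ((c1.pair
        ((Primrec.ofNat Code).comp c2)).pair (Primrec₂.natPair.comp c3 c2)))).to_comp
    have b1 : Computable (fun z : ℕ => z.unpair.2.unpair.2) :=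
      (Primrec.snd.comp (Primrec.unpair.comp (Primrec.snd.comp Primrec.unpair))).to_comp
    have h2 : RecT {(chi X : ℕ →. ℕ)} (fun z => Nat.pair z
        (Encodable.encode (seg X z.unpair.2.unpair.2))) :=
      RecT.pair (Pool.Agent.Helper743.Computable.recT Computable.id)
        ((recT_seg X).comp (Pool.Agent.Helper743.Computable.recT b1))
    refine ((Pool.Agent.Helper743.Computable.recT h1).comp h2).of_eq fun z => ?_
    simp [q]
  have hp : RecT {(chi X : ℕ →. ℕ)} (fun z => if Encodable.encode (q z) = 0 then 1 else 0) := by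
    have hs1 : Computable (fun z : ℕ => if z = 0 then 1 else 0) := by
      have : Primrec (fun z : ℕ => if z = 0 then 1 else 0) :=
        Primrec.ite (Primrec.eq.comp Primrec.id (Primrec.const 0)) (Primrec.const 1)
          (Primrec.const 0)
      exact this.to_comp
    exact (Pool.Agent.Helper743.Computable.recT hs1).comp hq
  have hr := Nat.RecursiveIn.rfind hp
  have hout : Computable (fun z : ℕ =>
      ((Encodable.decode (α := Option ℕ) z).getD none).getD 0) :=
    Computable.option_getD (Computable.option_getD Computable.decode (Computable.const none))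
      (Computable.const 0)
  have h5 := (Pool.Agent.Helper743.Computable.recT (O := {(chi X : ℕ →. ℕ)}) hout).comp hq
  have h6 : Nat.RecursiveIn {(chi X : ℕ →. ℕ)} (fun n => Part.some n) := by
    have := Pool.Agent.Helper743.Computable.recT (O := {(chi X : ℕ →. ℕ)})
      (Computable.id (α := ℕ))
    exact this
  have h7 := Nat.RecursiveIn.comp h5 (Nat.RecursiveIn.pair h6 hr)
  refine h7.of_eq fun n => ?_
  have hqn : ∀ p, q (Nat.pair n p) = Code.evaln p.unpair.1 (Denumerable.ofNat Code n)
      (Nat.pair (Encodable.encode (seg X p.unpair.2)) n) := by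
    intro p
    simp [q]
  ext v
  have hJ : v ∈ J X n ↔ ∃ p, q (Nat.pair n p) = some v ∧ ∀ p' < p, q (Nat.pair n p') = none := by
    unfold J Phi
    rw [mem_rfindOpt]
    simp only [hqn]
  rw [hJ]
  have hfind : ∀ p, p ∈ (Nat.rfind fun m => (fun m => decide (m = 0)) <$>
      (Part.some (if Encodable.encode (q (Nat.pair n m)) = 0 then 1 else 0) : Part ℕ)) ↔
      (q (Nat.pair n p)).isSome = true ∧ ∀ p' < p, q (Nat.pair n p') = none := by
    intro p
    refine Iff.trans Nat.mem_rfind ?_
    have e1 : ∀ m, (Encodable.encode (q (Nat.pair n m)) = 0) ↔ q (Nat.pair n m) = none := by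
      intro m
      cases q (Nat.pair n m) <;> simp
    constructor
    · rintro ⟨h1, h2⟩
      refine ⟨?_, fun p' hp' => ?_⟩
      · cases hq1 : q (Nat.pair n p) with
        | none => rw [hq1] at h1; simp at h1
        | some w => rfl
      · have := h2 hp'
        cases hq1 : q (Nat.pair n p') with
        | none => rfl
        | some w => rw [hq1] at this; simp at this
    · rintro ⟨h1, h2⟩
      refine ⟨?_, fun {m} hm => ?_⟩
      · obtain ⟨w, hw⟩ := Option.isSome_iff_exists.1 h1
        rw [hw]; simp
      · rw [h2 m hm]; simp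
  constructor
  · intro h
    simp only [Seq.seq, Part.mem_bind_iff, Part.map_eq_map, Part.mem_map_iff, Part.bind_eq_bind,
      Part.mem_some_iff] at h
    obtain ⟨z, ⟨_, ⟨a, rfl, rfl⟩, p, hp1, rfl⟩, rfl⟩ := h
    have hp2 := (hfind p).1 hp1
    refine ⟨p, ?_, hp2.2⟩
    obtain ⟨w, hw⟩ := Option.isSome_iff_exists.1 hp2.1
    rw [hw, Encodable.encodek]
    rfl
  · rintro ⟨p, h1, h2⟩
    simp only [Seq.seq, Part.mem_bind_iff, Part.map_eq_map, Part.mem_map_iff, Part.bind_eq_bind,
      Part.mem_some_iff]
    refine ⟨_, ⟨_, ⟨n, rfl, rfl⟩, p, (hfind p).2 ⟨by rw [h1]; rfl, h2⟩, rfl⟩, ?_⟩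
    rw [h1, Encodable.encodek]
    rfl

/-- the jump function is universal -/
theorem J_universal (X : Set ℕ) (f : ℕ →. ℕ) (hf : Nat.RecursiveIn {(chi X : ℕ →. ℕ)} f) :
    ∃ p : ℕ → ℕ, Computable p ∧ ∀ n, J X (p n) = f n := by
  obtain ⟨ev, hc, hm, hv⟩ := Pool.Agent.Helper743.use_principle (chi X) f hf
  -- input `⟨n, ⟨σ, k⟩⟩`
  have h1 : Partrec fun z : ℕ => (((Encodable.decode (α := List ℕ) z.unpair.2.unpair.1).bind
      fun σ => ev σ z.unpair.1 : Option ℕ) : Part ℕ) := by
    refine Computable.ofOption ?_
    refine Computable.option_bind (Computable.decode.comp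
      (Computable.fst.comp (Computable.unpair.comp (Computable.snd.comp Computable.unpair)))) ?_
    exact hc.comp Computable.snd (Computable.fst.comp (Computable.unpair.comp Computable.fst))
  obtain ⟨c, hc'⟩ := Code.exists_code.1 (Partrec.nat_iff.1 h1)
  refine ⟨fun n => Encodable.encode (Code.curry c n), ?_, fun n => ?_⟩
  · exact (Primrec.encode.comp (Code.primrec₂_curry.comp (Primrec.const c)
      Primrec.id)).to_comp
  · have key : ∀ t w k, w ∈ Code.eval (Denumerable.ofNat Code
        (Encodable.encode (Code.curry c n)))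
        (Nat.pair (Encodable.encode (seg X t)) k) ↔ ev (seg X t) n = some w := by
      intro t w k
      rw [Denumerable.ofNat_encode, Code.eval_curry, hc']
      simp
    ext v
    constructor
    · intro h
      unfold J Phi at h
      rw [mem_rfindOpt] at h
      obtain ⟨p, hp, _⟩ := h
      have h2 := (key _ _ _).1 (Code.evaln_sound hp)
      exact (hv n v).2 ⟨_, h2⟩
    · intro h
      obtain ⟨t, ht⟩ := (hv n v).1 h
      apply Phi_of_eval
      · intro t' w hw
        have h2 := (key _ _ _).1 hw
        exact Part.mem_unique ((hv n w).2 ⟨_, h2⟩) h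
      · exact ⟨t, (key _ _ _).2 ht⟩

/-- SJT reducibility does not depend on the choice of the universal functional: it is
traceability of all functions which are partial computable in the first set -/
theorem SJT_iff (A B : Set ℕ) : SJT A B ↔
    ∀ (f : ℕ →. ℕ), Nat.RecursiveIn {(chi A : ℕ →. ℕ)} f → ∀ h : ℕ → ℕ, IsOrder h →
      ∃ T : ℕ → Finset ℕ, IsTrace h B T ∧ ∀ n v, v ∈ f n → v ∈ T n := by
  constructor
  · intro hS f hf h hh
    obtain ⟨p, hp, hpf⟩ := J_universal A f hf
    obtain ⟨h', hh', hle⟩ := exists_slow_order (s := fun _ n => p n)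
      (hp.comp Computable.snd) hh
    obtain ⟨T, hT, hTJ⟩ := hS h' hh'
    refine ⟨fun n => T (p n), ⟨?_, fun n => ?_⟩, fun n v hv => ?_⟩
    · obtain ⟨F, hF, hFT⟩ := hT.ce
      have h1 : Computable fun k : ℕ => Nat.pair (p k.unpair.1) k.unpair.2 :=
        Primrec₂.natPair.to_comp.comp (hp.comp (Computable.fst.comp Computable.unpair))
          (Computable.snd.comp Computable.unpair)
      refine ⟨fun k => F (Nat.pair (p k.unpair.1) k.unpair.2), ?_, fun k => ?_⟩
      · refine (Nat.RecursiveIn.comp hF (Pool.Agent.Helper743.Computable.recT h1)).of_eq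
          fun k => ?_
        exact Part.bind_some _ _
      · have := hFT (Nat.pair (p k.unpair.1) k.unpair.2)
        simp only [Set.mem_ofPred_eq, Nat.unpair_pair] at this
        exact this
    · exact (hT.card (p n)).trans (hle 0 n (Nat.zero_le n))
    · rw [← hpf] at hv
      exact hTJ (p n) v hv
  · intro hS h hh
    exact hS _ (J_recursiveIn A) h hh

end Pool.Agent.V8H40.SJ
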