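import Pool.Agent.V8H40.SJ.Ord

/-!
# The splitting construction
-/

set_option autoImplicit false

namespace Pool.Agent.V8H40.SJ

open Nat.Partrec (Code)

/-- histories, newest entry first: the element enumerated and the side it is put on -/
abbrev Hist := List (ℕ × Bool)

/-- the state of a requirement: length of agreement, restraint, protected pairs -/
abbrev State := ℕ × ℕ × List (ℕ × ℕ)

/-- the oracle string of length `u` of side `b` after the history `L` -/
def lseg (b : Bool) (L : Hist) (u : ℕ) : List ℕ :=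
  (List.range u).map fun i => if (i, b) ∈ L then 1 else 0

/-- number of pairs with first coordinate `m` -/
def cnt (Q : List (ℕ × ℕ)) (m : ℕ) : ℕ := (Q.filter fun q => q.1 = m).length

/-- agreement at `m` -/
def ok1 (h : ℕ → ℕ) (e : ℕ) (α β : List ℕ) (Q : List (ℕ × ℕ)) (m : ℕ) : Prop :=
  run m α m = none ∨ ((run e β (Nat.pair m ((run m α m).getD 0))).isSome = true ∧
    ((m, (run m α m).getD 0) ∈ Q ∨ cnt Q m < h m))

/-- add the pairs `(m, J m)` -/
def upd (α : List ℕ) (Q : List (ℕ × ℕ)) : ℕ → List (ℕ × ℕ)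
  | 0 => Q
  | m + 1 => if run m α m = none ∨ (m, (run m α m).getD 0) ∈ upd α Q m then upd α Q m
      else (m, (run m α m).getD 0) :: upd α Q m

/-- the requirement acts -/
def act (h : ℕ → ℕ) (j : ℕ) (L : Hist) (x : ℕ) (s : State) : Prop :=
  ∀ m < s.1 + 1, ok1 h j.div2 (lseg (!j.bodd) L x) (lseg j.bodd L x) s.2.2 m

open Classical in
/-- one step of a requirement -/
noncomputable def stp (h : ℕ → ℕ) (j : ℕ) (L : Hist) (x : ℕ) (d : Bool) (s : State) : State :=
  if d = j.bodd ∧ x < s.2.1 then (0, 0, [])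
  else if act h j L x s then
    (s.1 + 1, max s.2.1 x, upd (lseg (!j.bodd) L x) s.2.2 (s.1 + 1))
  else s

/-- the state of a requirement after a history -/
noncomputable def st (h : ℕ → ℕ) (j : ℕ) : Hist → State
  | [] => (0, 0, [])
  | a :: L => stp h j L a.1 a.2 (st h j L)

/-- the side for a new element -/
noncomputable def dec (h : ℕ → ℕ) (L : Hist) (x : ℕ) : Bool :=
  !((List.range L.length).findIdx fun j => decide (x < (st h j L).2.1)).bodd

/-- the histories of the construction -/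
noncomputable def D (h f : ℕ → ℕ) : ℕ → Hist
  | 0 => []
  | s + 1 => (f s, dec h (D h f s) (f s)) :: D h f s

/-! ### The construction is effective -/

theorem mem_prim {α β : Type*} [Primcodable α] [Primcodable β] [DecidableEq β] {f : α → β}
    {g : α → List β} (hf : Primrec f) (hg : Primrec g) : PrimrecPred fun a => f a ∈ g a := by
  have : PrimrecRel fun (l : List β) (n : β) => ∃ a ∈ l, a = n :=
    PrimrecRel.exists_mem_list (R := fun a n => a = n) Primrec.eq
  exact (this.comp hg hf).of_eq fun n => by simp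

theorem lseg_prim : Primrec fun a : (Bool × Hist) × ℕ => lseg a.1.1 a.1.2 a.2 := by
  unfold lseg
  refine Primrec.list_map (Primrec.list_range.comp Primrec.snd) ?_
  refine Primrec.ite ?_ (Primrec.const 1) (Primrec.const 0)
  refine mem_prim (Primrec.snd.pair ?_) ?_
  · exact Primrec.fst.comp (Primrec.fst.comp Primrec.fst)
  · exact Primrec.snd.comp (Primrec.fst.comp Primrec.fst)

theorem cnt_prim : Primrec₂ cnt := by
  unfold cnt
  have h1 : PrimrecRel fun (q : ℕ × ℕ) (m : ℕ) => q.1 = m :=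
    Primrec.eq.comp (Primrec.fst.comp Primrec.fst) Primrec.snd
  exact Primrec.list_length.comp ((PrimrecRel.listFilter h1).comp Primrec.fst Primrec.snd)

theorem ok1_prim {α : Type*} [Primcodable α] {h : ℕ → ℕ} (hh : Primrec h) {e m : α → ℕ}
    {σ τ : α → List ℕ} {Q : α → List (ℕ × ℕ)} (he : Primrec e) (hm : Primrec m) (hσ : Primrec σ)
    (hτ : Primrec τ) (hQ : Primrec Q) :
    PrimrecPred fun a => ok1 h (e a) (σ a) (τ a) (Q a) (m a) := by
  have h1 : Primrec fun a => run (m a) (σ a) (m a) := run_comp hm hσ hm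
  have h2 : Primrec fun a => (run (m a) (σ a) (m a)).getD 0 :=
    Primrec.option_getD.comp h1 (Primrec.const 0)
  unfold ok1
  refine PrimrecPred.or (Primrec.eq.comp h1 (Primrec.const none)) (PrimrecPred.and ?_ ?_)
  · refine Primrec.eq.comp (Primrec.option_isSome.comp ?_) (Primrec.const true)
    exact run_comp he hτ (Primrec₂.natPair.comp hm h2)
  · refine PrimrecPred.or (mem_prim (hm.pair h2) hQ) ?_
    exact Primrec.nat_lt.comp (cnt_prim.comp hQ hm) (hh.comp hm)

theorem upd_prim : Primrec fun a : (List ℕ × List (ℕ × ℕ)) × ℕ => upd a.1.1 a.1.2 a.2 := by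
  have h1 : Primrec₂ fun (a : (List ℕ × List (ℕ × ℕ)) × ℕ) (b : ℕ × List (ℕ × ℕ)) =>
      if run b.1 a.1.1 b.1 = none ∨ (b.1, (run b.1 a.1.1 b.1).getD 0) ∈ b.2 then b.2
      else (b.1, (run b.1 a.1.1 b.1).getD 0) :: b.2 := by
    have c1 : Primrec fun z : ((List ℕ × List (ℕ × ℕ)) × ℕ) × (ℕ × List (ℕ × ℕ)) =>
        run z.2.1 z.1.1.1 z.2.1 :=
      run_comp (Primrec.fst.comp Primrec.snd) (Primrec.fst.comp (Primrec.fst.comp Primrec.fst))
        (Primrec.fst.comp Primrec.snd)
    have c2 : Primrec fun z : ((List ℕ × List (ℕ × ℕ)) × ℕ) × (ℕ × List (ℕ × ℕ)) =>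
        (z.2.1, (run z.2.1 z.1.1.1 z.2.1).getD 0) :=
      (Primrec.fst.comp Primrec.snd).pair (Primrec.option_getD.comp c1 (Primrec.const 0))
    refine Primrec.ite ?_ (Primrec.snd.comp Primrec.snd)
      (Primrec.list_cons.comp c2 (Primrec.snd.comp Primrec.snd))
    exact (Primrec.eq.comp c1 (Primrec.const none)).or (mem_prim c2 (Primrec.snd.comp Primrec.snd))
  refine (Primrec.nat_rec' Primrec.snd (Primrec.snd.comp Primrec.fst) h1).of_eq fun a => ?_
  generalize a.2 = n at *
  have : ∀ n, (Nat.rec (motive := fun _ => List (ℕ × ℕ)) a.1.2 (fun (m : ℕ) (IH : List (ℕ × ℕ)) =>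
      if run m a.1.1 m = none ∨ (m, (run m a.1.1 m).getD 0) ∈ IH then IH
      else (m, (run m a.1.1 m).getD 0) :: IH) n) = upd a.1.1 a.1.2 n := by
    intro n
    induction n with
    | zero => rfl
    | succ n ih => rw [upd, ← ih]
  exact this _

theorem act_prim {h : ℕ → ℕ} (hh : Primrec h) :
    PrimrecPred fun a : (ℕ × Hist) × ℕ × State => act h a.1.1 a.1.2 a.2.1 a.2.2 := by
  unfold act
  have c1 : Primrec fun z : ℕ × ((ℕ × Hist) × ℕ × State) => z.2.1.1 :=
    Primrec.fst.comp (Primrec.fst.comp Primrec.snd)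
  have c2 : Primrec fun z : ℕ × ((ℕ × Hist) × ℕ × State) => z.2.1.2 :=
    Primrec.snd.comp (Primrec.fst.comp Primrec.snd)
  have c3 : Primrec fun z : ℕ × ((ℕ × Hist) × ℕ × State) => z.2.2.1 :=
    Primrec.fst.comp (Primrec.snd.comp Primrec.snd)
  have c4 : Primrec fun z : ℕ × ((ℕ × Hist) × ℕ × State) => z.2.2.2.2.2 :=
    Primrec.snd.comp (Primrec.snd.comp (Primrec.snd.comp (Primrec.snd.comp Primrec.snd)))
  have c5 : Primrec fun z : ℕ × ((ℕ × Hist) × ℕ × State) =>
      lseg (!z.2.1.1.bodd) z.2.1.2 z.2.2.1 :=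
    lseg_prim.comp (((Primrec.not.comp (Primrec.nat_bodd.comp c1)).pair c2).pair c3)
  have c6 : Primrec fun z : ℕ × ((ℕ × Hist) × ℕ × State) =>
      lseg z.2.1.1.bodd z.2.1.2 z.2.2.1 :=
    lseg_prim.comp (((Primrec.nat_bodd.comp c1).pair c2).pair c3)
  have c7 : PrimrecRel fun (m : ℕ) (a : (ℕ × Hist) × ℕ × State) =>
      ok1 h a.1.1.div2 (lseg (!a.1.1.bodd) a.1.2 a.2.1) (lseg a.1.1.bodd a.1.2 a.2.1)
        a.2.2.2.2 m :=
    ok1_prim hh (Primrec.nat_div2.comp c1) Primrec.fst c5 c6 c4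
  refine ((PrimrecRel.forall_mem_list c7).comp (Primrec.list_range.comp (Primrec.succ.comp
    (Primrec.fst.comp (Primrec.snd.comp Primrec.snd)))) Primrec.id).of_eq fun a => ?_
  simp only [List.mem_range, id]

theorem st_prim {h : ℕ → ℕ} (hh : Primrec h) : Primrec fun a : ℕ × Hist => st h a.1 a.2 := by
  classical
  have h1 : Primrec₂ fun (a : ℕ × Hist) (b : (ℕ × Bool) × Hist × State) =>
      stp h a.1 b.2.1 b.1.1 b.1.2 b.2.2 := by
    unfold stp
    have c1 : Primrec fun z : (ℕ × Hist) × ((ℕ × Bool) × Hist × State) => z.1.1 :=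
      Primrec.fst.comp Primrec.fst
    have c2 : Primrec fun z : (ℕ × Hist) × ((ℕ × Bool) × Hist × State) => z.2.2.1 :=
      Primrec.fst.comp (Primrec.snd.comp Primrec.snd)
    have c3 : Primrec fun z : (ℕ × Hist) × ((ℕ × Bool) × Hist × State) => z.2.1.1 :=
      Primrec.fst.comp (Primrec.fst.comp Primrec.snd)
    have c4 : Primrec fun z : (ℕ × Hist) × ((ℕ × Bool) × Hist × State) => z.2.1.2 :=
      Primrec.snd.comp (Primrec.fst.comp Primrec.snd)
    have c5 : Primrec fun z : (ℕ × Hist) × ((ℕ × Bool) × Hist × State) => z.2.2.2 :=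
      Primrec.snd.comp (Primrec.snd.comp Primrec.snd)
    have c6 : Primrec fun z : (ℕ × Hist) × ((ℕ × Bool) × Hist × State) => z.2.2.2.2.1 :=
      Primrec.fst.comp (Primrec.snd.comp c5)
    have c7 : Primrec fun z : (ℕ × Hist) × ((ℕ × Bool) × Hist × State) => z.2.2.2.2.2 :=
      Primrec.snd.comp (Primrec.snd.comp c5)
    have c8 : Primrec fun z : (ℕ × Hist) × ((ℕ × Bool) × Hist × State) =>
        lseg (!z.1.1.bodd) z.2.2.1 z.2.1.1 :=
      lseg_prim.comp (((Primrec.not.comp (Primrec.nat_bodd.comp c1)).pair c2).pair c3)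
    refine Primrec.ite ?_ (Primrec.const (0, 0, [])) (Primrec.ite ?_ ?_ c5)
    · exact (Primrec.eq.comp c4 (Primrec.nat_bodd.comp c1)).and (Primrec.nat_lt.comp c3 c6)
    · exact (act_prim hh).comp ((c1.pair c2).pair (c3.pair c5))
    · refine (Primrec.succ.comp (Primrec.fst.comp c5)).pair
        ((Primrec.nat_max.comp c6 c3).pair ?_)
      exact upd_prim.comp ((c8.pair c7).pair (Primrec.succ.comp (Primrec.fst.comp c5)))
  refine (Primrec.list_rec Primrec.snd (Primrec.const (0, 0, [])) h1).of_eq fun a => ?_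
  obtain ⟨j, L⟩ := a
  simp only
  induction L with
  | nil => rfl
  | cons a L ih => rw [st, ← ih]

theorem dec_prim {h : ℕ → ℕ} (hh : Primrec h) : Primrec₂ (dec h) := by
  unfold dec
  refine Primrec.not.comp (Primrec.nat_bodd.comp ?_)
  refine Primrec.list_findIdx (Primrec.list_range.comp (Primrec.list_length.comp Primrec.fst)) ?_
  have h1 : PrimrecPred fun z : (Hist × ℕ) × ℕ => z.1.2 < (st h z.2 z.1.1).2.1 := by
    refine Primrec.nat_lt.comp (Primrec.snd.comp Primrec.fst) ?_
    exact Primrec.fst.comp (Primrec.snd.comp ((st_prim hh).comp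
      (Primrec.snd.pair (Primrec.fst.comp Primrec.fst))))
  exact h1.decide

theorem D_comp {h f : ℕ → ℕ} (hh : Primrec h) (hf : Computable f) : Computable (D h f) := by
  have h1 : Computable₂ fun (_ : ℕ) (b : ℕ × Hist) => ((f b.1, dec h b.2 (f b.1)) :: b.2) := by
    have c1 : Computable fun z : ℕ × (ℕ × Hist) => f z.2.1 :=
      hf.comp (Computable.fst.comp Computable.snd)
    have c2 : Computable fun z : ℕ × (ℕ × Hist) => z.2.2 := Computable.snd.comp Computable.snd
    exact Computable.list_cons.comp (c1.pair ((dec_prim hh).to_comp.comp c2 c1)) c2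
  refine (Computable.nat_rec Computable.id (Computable.const ([] : Hist)) h1).of_eq fun n => ?_
  induction n with
  | zero => rfl
  | succ n ih =>
    rw [D, ← ih]
    rfl

end Pool.Agent.V8H40.SJ
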