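import Mathlib

/-!
# SJT reducibility: definitions

Oracle computability is that of Mathlib (`Nat.RecursiveIn`, `TuringReducible`), applied to
characteristic functions; the universal functional is built from Mathlib's codes of partial
recursive functions applied to finite initial segments of the oracle.
-/

set_option autoImplicit false

namespace Pool.Agent.V8H40.SJ

open Nat.Partrec (Code)

open Classical in
/-- the characteristic function of a set of numbers -/
noncomputable def chi (X : Set ℕ) : ℕ → ℕ := fun n => if n ∈ X then 1 else 0

/-- the initial segment of length `t` of the characteristic function of `X` -/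
noncomputable def seg (X : Set ℕ) (t : ℕ) : List ℕ := (List.range t).map (chi X)

/-- the `e`-th oracle machine with oracle `X` on input `k`: search for the least pair `⟨s, t⟩`
such that the `e`-th program, given the initial segment of `X` of length `t` and the number `k`,
halts within `s` steps, and return its value -/
noncomputable def Phi (e : ℕ) (X : Set ℕ) (k : ℕ) : Part ℕ :=
  Nat.rfindOpt fun p => Code.evaln p.unpair.1 (Denumerable.ofNat Code e)
    (Nat.pair (Encodable.encode (seg X p.unpair.2)) k)

/-- the jump function: `J X n` is the value of the `n`-th machine with oracle `X` on input `n` -/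
noncomputable def J (X : Set ℕ) (n : ℕ) : Part ℕ := Phi n X n

/-- computably enumerable sets -/
def CE (S : Set ℕ) : Prop := REPred fun n => n ∈ S

/-- `S` is computably enumerable relative to `B`: it is the domain of a function which is
recursive in (the characteristic function of) `B` -/
def CEIn (B S : Set ℕ) : Prop :=
  ∃ f : ℕ →. ℕ, Nat.RecursiveIn {(chi B : ℕ →. ℕ)} f ∧ ∀ n, n ∈ S ↔ (f n).Dom

/-- Turing reducibility of sets -/
def TLe (A E : Set ℕ) : Prop := TuringReducible (chi A : ℕ →. ℕ) (chi E : ℕ →. ℕ)

/-- order functions: computable, positive, nondecreasing and unbounded -/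
structure IsOrder (h : ℕ → ℕ) : Prop where
  comp : Computable h
  pos : ∀ n, 0 < h n
  mono : Monotone h
  unb : ∀ k, ∃ n, k ≤ h n

/-- `T` is an `h`-bounded `B`-c.e. trace -/
structure IsTrace (h : ℕ → ℕ) (B : Set ℕ) (T : ℕ → Finset ℕ) : Prop where
  ce : CEIn B {k | k.unpair.2 ∈ T k.unpair.1}
  card : ∀ n, (T n).card ≤ h n

/-- SJT reducibility -/
def SJT (A B : Set ℕ) : Prop :=
  ∀ h : ℕ → ℕ, IsOrder h → ∃ T : ℕ → Finset ℕ, IsTrace h B T ∧ ∀ n v, v ∈ J A n → v ∈ T n

end Pool.Agent.V8H40.SJ
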