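import Pool.Agent.V8H40.SJ.Smn

/-!
# Searches and injective enumerations
-/

set_option autoImplicit false

namespace Pool.Agent.V8H40.SJ

open Pool.Agent.V8H40.FS (RE)

theorem exists_search {p : ℕ → ℕ → Bool} (hp : Computable₂ p) (hex : ∀ t, ∃ s, p t s = true) :
    ∃ g : ℕ → ℕ, Computable g ∧ ∀ t, p t (g t) = true := by
  classical
  refine ⟨fun t => Nat.find (hex t), ?_, fun t => Nat.find_spec (hex t)⟩
  have h1 : Partrec fun t : ℕ => Nat.rfind fun s => (Part.some (p t s) : Part Bool) :=
    Partrec.rfind hp.partrec₂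
  refine Partrec.of_eq h1 fun t => ?_
  refine Part.eq_some_iff.2 (Nat.mem_rfind.2 ⟨?_, fun {m} hm => ?_⟩)
  · simpa using Nat.find_spec (hex t)
  · have := Nat.find_min (hex t) hm
    simpa using this

theorem CE_of_search {p : ℕ → ℕ → Bool} (hp : Computable₂ p) : CE {k | ∃ s, p k s = true} := by
  have h1 : Partrec fun t : ℕ => Nat.rfind fun s => (Part.some (p t s) : Part Bool) :=
    Partrec.rfind hp.partrec₂
  refine h1.dom_re.of_eq fun k => ?_
  change _ ↔ ∃ s, p k s = true
  constructor
  · intro h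
    obtain ⟨n, hn⟩ := Part.dom_iff_mem.1 h
    have := Nat.rfind_spec hn
    refine ⟨n, ?_⟩
    simpa using this
  · rintro ⟨u, hu⟩
    refine Nat.rfind_dom.2 ⟨u, ?_, fun {m} _ => trivial⟩
    simp [hu]

/-- iteration of a search -/
def itr (nx : ℕ → ℕ) : ℕ → ℕ
  | 0 => nx 0
  | n + 1 => nx (itr nx n + 1)

/-- an infinite computably enumerable set has an injective computable enumeration -/
theorem exists_injective {E : Set ℕ} (hE : CE E) (hinf : E.Infinite) :
    ∃ f : ℕ → ℕ, Computable f ∧ Function.Injective f ∧ ∀ x, x ∈ E ↔ ∃ s, f s = x := by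
  have hE' : RE E := hE
  obtain ⟨β, hβ, h1, h2⟩ := hE'.exists_enum
  have hinf2 : {s | (β s).isSome = true}.Infinite := by
    intro hfin
    refine hinf ?_
    refine (hfin.image fun s => (β s).getD 0).subset ?_
    intro x hx
    obtain ⟨s, hs⟩ := (h1 x).1 hx
    exact ⟨s, by simp [hs], by simp [hs]⟩
  have hex : ∀ t, ∃ s, (decide (t ≤ s) && (β s).isSome) = true := by
    intro t
    obtain ⟨s, hs, hts⟩ := hinf2.exists_gt t
    refine ⟨s, ?_⟩
    have hs' : (β s).isSome = true := hs
    simp [hs', hts.le]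
  classical
  let nx : ℕ → ℕ := fun t => Nat.find (hex t)
  have hnx : Computable nx := by
    have hp : Computable₂ fun (t s : ℕ) => (decide (t ≤ s) && (β s).isSome) := by
      have : Primrec₂ fun (t s : ℕ) => (decide (t ≤ s) && (β s).isSome) :=
        Primrec.and.comp Primrec.nat_le.decide
          (Primrec.option_isSome.comp (hβ.comp Primrec.snd))
      exact this.to_comp
    have h3 : Partrec fun t : ℕ => Nat.rfind fun s =>
        (Part.some (decide (t ≤ s) && (β s).isSome) : Part Bool) :=
      Partrec.rfind hp.partrec₂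
    refine Partrec.of_eq h3 fun t => ?_
    refine Part.eq_some_iff.2 (Nat.mem_rfind.2 ⟨?_, fun {m} hm => ?_⟩)
    · have h4 := Nat.find_spec (hex t)
      rw [Part.mem_some_iff]
      exact h4.symm
    · have := Nat.find_min (hex t) hm
      rw [Bool.not_eq_true] at this
      rw [Part.mem_some_iff]
      exact this.symm
  have nx1 : ∀ t, t ≤ nx t ∧ (β (nx t)).isSome = true := by
    intro t
    have := Nat.find_spec (hex t)
    rw [Bool.and_eq_true, decide_eq_true_eq] at this
    exact this
  have nx2 : ∀ t s, t ≤ s → (β s).isSome = true → nx t ≤ s := by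
    intro t s h3 h4
    exact Nat.find_min' (hex t) (by simp [h3, h4])
  have hg : Computable (itr nx) := by
    have h3 : Computable₂ fun (_ : ℕ) (b : ℕ × ℕ) => nx (b.2 + 1) :=
      hnx.comp (Computable.succ.comp (Computable.snd.comp Computable.snd))
    refine (Computable.nat_rec Computable.id (Computable.const (nx 0)) h3).of_eq fun n => ?_
    induction n with
    | zero => rfl
    | succ n ih => rw [itr, ← ih]; rfl
  have hg0 : itr nx 0 = nx 0 := rfl
  have hgs : ∀ n, itr nx (n + 1) = nx (itr nx n + 1) := fun n => rfl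
  generalize itr nx = g at hg hg0 hgs
  have hg1 : StrictMono g := by
    refine strictMono_nat_of_lt_succ fun n => ?_
    rw [hgs]
    have := (nx1 (g n + 1)).1
    omega
  have hg2 : ∀ n, (β (g n)).isSome = true := by
    intro n
    cases n with
    | zero => rw [hg0]; exact (nx1 0).2
    | succ n => rw [hgs]; exact (nx1 _).2
  have hg3 : ∀ s, (β s).isSome = true → ∃ n, g n = s := by
    intro s hs
    have h3 : ∃ n, s ≤ g n := ⟨s, hg1.id_le s⟩
    refine ⟨Nat.find h3, le_antisymm ?_ (Nat.find_spec h3)⟩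
    rcases Nat.eq_zero_or_pos (Nat.find h3) with h4 | h4
    · rw [h4, hg0]
      exact nx2 0 s (Nat.zero_le _) hs
    · obtain ⟨k, hk⟩ := Nat.exists_eq_succ_of_ne_zero h4.ne'
      rw [hk, Nat.succ_eq_add_one, hgs]
      refine nx2 _ _ ?_ hs
      have := Nat.find_min h3 (m := k) (by omega)
      omega
  refine ⟨fun n => (β (g n)).getD 0, ?_, ?_, ?_⟩
  · exact (Primrec.option_getD.comp hβ (Primrec.const 0)).to_comp.comp hg
  · intro a b hab
    simp only at hab
    obtain ⟨x, hx⟩ := Option.isSome_iff_exists.1 (hg2 a)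
    obtain ⟨y, hy⟩ := Option.isSome_iff_exists.1 (hg2 b)
    rw [hx, hy] at hab
    simp only [Option.getD_some] at hab
    subst hab
    exact hg1.injective (h2 x _ _ hx hy)
  · intro x
    rw [h1]
    constructor
    · rintro ⟨s, hs⟩
      obtain ⟨n, hn⟩ := hg3 s (by simp [hs])
      exact ⟨n, by simp [hn, hs]⟩
    · rintro ⟨n, hn⟩
      obtain ⟨y, hy⟩ := Option.isSome_iff_exists.1 (hg2 n)
      refine ⟨g n, ?_⟩
      simp only [hy, Option.getD_some] at hn
      rw [hy, hn]

end Pool.Agent.V8H40.SJ
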