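import Pool.Agent.V8H40.SJ.Verif
import Pool.Agent.V8H40.SJ.Enum

/-!
# The splitting theorem
-/

set_option autoImplicit false

namespace Pool.Agent.V8H40.SJ

open Nat.Partrec (Code)
open Pool.Agent.V8H40.FS (RE)

variable {h f : ℕ → ℕ}

theorem S_comp (hh : Primrec h) (hf : Computable f) (j : ℕ) : Computable (S h f j) :=
  (st_prim hh).to_comp.comp (Computable.pair (Computable.const j) (D_comp hh hf))

theorem sd_comp (hh : Primrec h) (hf : Computable f) : Computable (sd h f) :=
  (dec_prim hh).to_comp.comp (D_comp hh hf) hf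

/-- eventually no action bounds the restraint -/
theorem bdd_of_no_act {j s₀ : ℕ} (hn : ∀ s, s₀ ≤ s → ¬ Inj h f j s)
    {s₁ : ℕ} (h1 : s₀ ≤ s₁) (h2 : ∀ t, s₁ ≤ t → ¬ Act h f j t) :
    ∃ R, ∀ s, (S h f j s).2.1 ≤ R := by
  have h3 : ∀ t, s₁ ≤ t → S h f j t = S h f j s₁ := by
    intro t ht
    induction t, ht using Nat.le_induction with
    | base => rfl
    | succ t ht ih => rw [S_no (hn t (h1.trans ht)) (h2 t ht), ih]
  refine ⟨(Finset.range (s₁ + 1)).sup fun s => (S h f j s).2.1, fun s => ?_⟩
  rcases Nat.lt_or_ge s (s₁ + 1) with h4 | h4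
  · exact Finset.le_sup (f := fun s => (S h f j s).2.1) (Finset.mem_range.2 h4)
  · rw [h3 s (by omega)]
    exact Finset.le_sup (f := fun s => (S h f j s).2.1) (Finset.mem_range.2 (Nat.lt_succ_self s₁))

/-- the union of the two sides -/
theorem union_side (b : Bool) : side h f (!b) ∪ side h f b = Set.range f := by
  ext x
  constructor
  · rintro (⟨t, ht, _⟩ | ⟨t, ht, _⟩) <;> exact ⟨t, ht⟩
  · rintro ⟨t, ht⟩
    by_cases h1 : sd h f t = b
    · exact Or.inr ⟨t, ht, h1⟩
    · refine Or.inl ⟨t, ht, ?_⟩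
      cases hb : b <;> cases hs : sd h f t <;> simp_all

section

variable {j s₀ : ℕ} (hn : ∀ s, s₀ ≤ s → ¬ Inj h f j s)
  (hact : ∀ s₁, ∃ t, s₁ ≤ t ∧ Act h f j t)

include hn hact

/-- the length of agreement grows -/
theorem N_unb : ∀ k, ∃ s, s₀ ≤ s ∧ k ≤ (S h f j s).1 := by
  intro k
  induction k with
  | zero => exact ⟨s₀, le_refl _, Nat.zero_le _⟩
  | succ k ih =>
    obtain ⟨s, hs, hk⟩ := ih
    obtain ⟨t, ht, ha⟩ := hact s
    have h1 := (mono hn hs ht).1
    refine ⟨t + 1, by omega, ?_⟩
    rw [S_act (hn t (hs.trans ht)) ha]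
    simp only
    omega

theorem R_unb (hinj : Function.Injective f) : ∀ k, ∃ s, s₀ ≤ s ∧ k ≤ (S h f j s).2.1 := by
  intro k
  obtain ⟨s₁, hs₁⟩ := eventually_ge hinj k
  obtain ⟨t, ht, ha⟩ := hact (max s₀ s₁)
  have h1 : s₀ ≤ t := (le_max_left _ _).trans ht
  have h2 : s₁ ≤ t := (le_max_right _ _).trans ht
  refine ⟨t + 1, by omega, ?_⟩
  rw [S_act (hn t h1) ha]
  exact (hs₁ t h2).trans (le_max_right _ _)

/-- the protected side is computable -/
theorem comp_side (hinj : Function.Injective f) (hh : Primrec h) (hf : Computable f) :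
    Comp (side h f j.bodd) := by
  have hp : Computable₂ fun (t s : ℕ) => decide (s₀ ≤ s ∧ t ≤ (S h f j s).2.1) := by
    have h1 : PrimrecPred fun b : ℕ × ℕ × State => s₀ ≤ b.2.1 ∧ b.1 ≤ b.2.2.2.1 := by
      refine PrimrecPred.and ?_ ?_
      · exact Primrec.nat_le.comp (Primrec.const s₀) (Primrec.fst.comp Primrec.snd)
      · exact Primrec.nat_le.comp Primrec.fst
          (Primrec.fst.comp (Primrec.snd.comp (Primrec.snd.comp Primrec.snd)))
    have h2 : Computable fun b : ℕ × ℕ => (b.1, b.2, S h f j b.2) :=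
      Computable.pair Computable.fst (Computable.pair Computable.snd
        ((S_comp hh hf j).comp Computable.snd))
    exact (h1.decide.to_comp.comp h2).of_eq fun b => rfl
  obtain ⟨g, hg, hg2⟩ := exists_search hp (fun t => by
    obtain ⟨s, hs1, hs2⟩ := R_unb hn hact hinj t
    exact ⟨s, by simp [hs1, hs2]⟩)
  unfold Comp
  have h3 : Computable fun t => lseg j.bodd (D h f (g t)) t :=
    lseg_prim.to_comp.comp (Computable.pair (Computable.pair (Computable.const j.bodd)
      ((D_comp hh hf).comp hg)) Computable.id)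
  refine h3.of_eq fun t => ?_
  have h4 := hg2 t
  simp only [decide_eq_true_eq] at h4
  exact lseg_preserved hn h4.1 h4.2

/-- the jump of the other side is traced by the protected pairs -/
theorem J_traced (hinj : Function.Injective f) {m v : ℕ} (hv : v ∈ J (side h f (!j.bodd)) m) :
    ∃ s, s₀ ≤ s ∧ (m, v) ∈ (S h f j s).2.2 := by
  rw [mem_J] at hv
  obtain ⟨u, hu⟩ := hv
  obtain ⟨s₁, hs₁⟩ := eventually_ge hinj u
  obtain ⟨s₂, hs₂, hm⟩ := N_unb hn hact m
  obtain ⟨t, ht, ha⟩ := hact (max s₁ s₂)
  have h1 : s₁ ≤ t := (le_max_left _ _).trans ht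
  have h2 : s₂ ≤ t := (le_max_right _ _).trans ht
  have h3 : s₀ ≤ t := hs₂.trans h2
  refine ⟨t + 1, by omega, ?_⟩
  rw [S_act (hn t h3) ha]
  simp only
  rw [mem_upd]
  right
  refine ⟨?_, ?_⟩
  · have := (mono hn hs₂ h2).1
    simp only
    omega
  · simp only
    rw [← lseg_D (s := t) fun t' ht' => hs₁ t' (h1.trans ht')] at hu
    exact run_mono (lseg_prefix _ _ (hs₁ t h1)) hu

end

/-- bound on the number of protected values -/
theorem card_le {j s₀ : ℕ} (hn : ∀ s, s₀ ≤ s → ¬ Inj h f j s) (m : ℕ) (F : Finset ℕ)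
    (hF : ∀ v ∈ F, ∃ s, s₀ ≤ s ∧ (m, v) ∈ (S h f j s).2.2) : F.card ≤ h m := by
  have h1 : ∃ s, s₀ ≤ s ∧ ∀ v ∈ F, (m, v) ∈ (S h f j s).2.2 := by
    induction F using Finset.induction_on with
    | empty => exact ⟨s₀, le_refl _, by simp⟩
    | insert a F ha ih =>
      obtain ⟨s, hs, h2⟩ := ih fun v hv => hF v (Finset.mem_insert_of_mem hv)
      obtain ⟨s', hs', h3⟩ := hF a (Finset.mem_insert_self _ _)
      refine ⟨max s s', hs.trans (le_max_left _ _), fun v hv => ?_⟩
      rcases Finset.mem_insert.1 hv with rfl | hv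
      · exact (mono hn hs' (le_max_right _ _)).2.2 _ h3
      · exact (mono hn hs (le_max_left _ _)).2.2 _ (h2 v hv)
  obtain ⟨s, _, hs⟩ := h1
  have h2 := (inv2 (h := h) (f := f) j s).2 m
  rw [cnt_eq (inv2 j s).1] at h2
  refine le_trans ?_ h2
  have h3 : F.image (fun v => (m, v)) ⊆ ((S h f j s).2.2.toFinset.filter fun q => q.1 = m) := by
    intro q hq
    rw [Finset.mem_image] at hq
    obtain ⟨v, hv, rfl⟩ := hq
    rw [Finset.mem_filter, List.mem_toFinset]
    exact ⟨hs v hv, rfl⟩
  have h4 : (F.image fun v => (m, v)).card = F.card :=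
    Finset.card_image_of_injective _ fun a b hab => (Prod.mk.inj hab).2
  rw [← h4]
  exact Finset.card_le_card h3

theorem finite_of_card_le {T : Set ℕ} {k : ℕ} (hT : ∀ F : Finset ℕ, (∀ v ∈ F, v ∈ T) →
    F.card ≤ k) : T.Finite := by
  by_contra h1
  obtain ⟨F, hF, hc⟩ := Set.Infinite.exists_subset_card_eq h1 (k + 1)
  have := hT F fun v hv => hF hv
  omega

/-- if a requirement acts infinitely often then the jump of `E` is traced by a computably
enumerable trace -/
theorem trace_of_act {j s₀ : ℕ} (hn : ∀ s, s₀ ≤ s → ¬ Inj h f j s)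
    (hact : ∀ s₁, ∃ t, s₁ ≤ t ∧ Act h f j t) (hinj : Function.Injective f) (hh : Primrec h)
    (hf : Computable f) {g : ℕ → ℕ} (hg : IsOrder g) {sm : ℕ → ℕ → ℕ} (hsm : Computable₂ sm)
    (hle : ∀ c n, c ≤ n → h (sm c n) ≤ g n)
    (hsmn : ∀ B : Set ℕ, Comp B → ∃ c, ∀ (A : Set ℕ) (n v : ℕ), v ∈ J (A ∪ B) n →
      v ∈ J A (sm c n)) :
    ∃ T : ℕ → Finset ℕ, IsTrace g ∅ T ∧ ∀ n v, v ∈ J (Set.range f) n → v ∈ T n := by
  classical
  obtain ⟨c, hc⟩ := hsmn _ (comp_side hn hact hinj hh hf)
  let T' : ℕ → Set ℕ := fun m => {v | ∃ s, s₀ ≤ s ∧ (m, v) ∈ (S h f j s).2.2}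
  have hT' : ∀ m, (T' m).Finite := fun m => finite_of_card_le (card_le hn m)
  have hJfin : ∀ n, {v | v ∈ J (Set.range f) n}.Subsingleton := by
    intro n v hv w hw
    exact Part.mem_unique hv hw
  let T : ℕ → Finset ℕ := fun n => if c ≤ n then (hT' (sm c n)).toFinset
    else (hJfin n).finite.toFinset
  have hTmem : ∀ n v, v ∈ T n ↔ (c ≤ n ∧ v ∈ T' (sm c n)) ∨ (n < c ∧ v ∈ J (Set.range f) n) := by
    intro n v
    by_cases h1 : c ≤ n
    · simp [T, h1, Nat.not_lt.2 h1]
    · simp [T, h1, Nat.lt_of_not_le h1]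
  refine ⟨T, ⟨?_, ?_⟩, ?_⟩
  · apply CEIn_of_CE
    have h1 : CE {k | ∃ s, (fun (k s : ℕ) => decide (c ≤ k.unpair.1 ∧ s₀ ≤ s ∧
        (sm c k.unpair.1, k.unpair.2) ∈ (S h f j s).2.2)) k s = true} := by
      apply CE_of_search
      have h2 : PrimrecPred fun b : ℕ × ℕ × ℕ × State => c ≤ b.1.unpair.1 ∧ s₀ ≤ b.2.1 ∧
          (b.2.2.1, b.1.unpair.2) ∈ b.2.2.2.2.2 := by
        refine PrimrecPred.and ?_ (PrimrecPred.and ?_ ?_)
        · exact Primrec.nat_le.comp (Primrec.const c)
            (Primrec.fst.comp (Primrec.unpair.comp Primrec.fst))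
        · exact Primrec.nat_le.comp (Primrec.const s₀) (Primrec.fst.comp Primrec.snd)
        · refine mem_prim ?_ ?_
          · exact (Primrec.fst.comp (Primrec.snd.comp Primrec.snd)).pair
              (Primrec.snd.comp (Primrec.unpair.comp Primrec.fst))
          · exact Primrec.snd.comp (Primrec.snd.comp (Primrec.snd.comp
              (Primrec.snd.comp Primrec.snd)))
      have h3 : Computable fun b : ℕ × ℕ => (b.1, b.2, sm c b.1.unpair.1, S h f j b.2) := by
        refine Computable.pair Computable.fst (Computable.pair Computable.snd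
          (Computable.pair ?_ ((S_comp hh hf j).comp Computable.snd)))
        exact hsm.comp (Computable.const c) (Computable.fst.comp (Computable.unpair.comp
          Computable.fst))
      exact (h2.decide.to_comp.comp h3).of_eq fun b => rfl
    have h4 : {k : ℕ | k.unpair.1 < c ∧ k.unpair.2 ∈ J (Set.range f) k.unpair.1}.Finite := by
      have h5 : (⋃ n ∈ Finset.range c, (fun v => Nat.pair n v) ''
          {v | v ∈ J (Set.range f) n}).Finite := by
        refine Set.Finite.biUnion (Finset.finite_toSet _) fun n _ => ?_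
        exact (hJfin n).finite.image _
      refine h5.subset fun k hk => ?_
      rw [Set.mem_iUnion₂]
      exact ⟨k.unpair.1, Finset.mem_range.2 hk.1, k.unpair.2, hk.2, Nat.pair_unpair k⟩
    have h5 : RE _ := RE.union (A := {k | ∃ s, (fun (k s : ℕ) => decide (c ≤ k.unpair.1 ∧ s₀ ≤ s ∧
        (sm c k.unpair.1, k.unpair.2) ∈ (S h f j s).2.2)) k s = true}) h1
        (Pool.Agent.V8H40.FS.RE_finite h4)
    refine RE.of_eq h5 ?_
    ext k
    change _ ↔ k.unpair.2 ∈ T k.unpair.1
    rw [hTmem]
    constructor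
    · rintro (⟨s, hs⟩ | hk)
      · simp only [decide_eq_true_eq] at hs
        exact Or.inl ⟨hs.1, s, hs.2⟩
      · exact Or.inr hk
    · rintro (⟨hk, s, hs⟩ | hk)
      · exact Or.inl ⟨s, by simpa using ⟨hk, hs⟩⟩
      · exact Or.inr hk
  · intro n
    by_cases h1 : c ≤ n
    · have : T n = (hT' (sm c n)).toFinset := if_pos h1
      rw [this]
      refine le_trans (card_le hn (sm c n) _ fun v hv => ?_) (hle c n h1)
      rw [Set.Finite.mem_toFinset] at hv
      exact hv
    · have : T n = (hJfin n).finite.toFinset := if_neg h1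
      rw [this]
      refine le_trans (Finset.card_le_one.2 fun a ha b hb => ?_) (hg.pos n)
      rw [Set.Finite.mem_toFinset] at ha hb
      exact hJfin n ha hb
  · intro n v hv
    rw [hTmem]
    rcases Nat.lt_or_ge n c with h1 | h1
    · exact Or.inr ⟨h1, hv⟩
    · refine Or.inl ⟨h1, ?_⟩
      rw [← union_side (h := h) (f := f) j.bodd] at hv
      exact J_traced hn hact hinj (hc _ _ _ hv)

/-- infinitely many true stages -/
theorem exists_true (hinj : Function.Injective f) (U s : ℕ) :
    ∃ t, s ≤ t ∧ U ≤ f t ∧ ∀ t', t ≤ t' → f t ≤ f t' := by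
  classical
  obtain ⟨s₁, hs₁⟩ := eventually_ge hinj U
  have hex : ∃ y, ∃ t, max s s₁ ≤ t ∧ f t = y := ⟨_, max s s₁, le_refl _, rfl⟩
  obtain ⟨t, ht, hy⟩ := Nat.find_spec hex
  refine ⟨t, (le_max_left _ _).trans ht, hs₁ t ((le_max_right _ _).trans ht), fun t' ht' => ?_⟩
  rw [hy]
  exact Nat.find_min' hex ⟨t', ht.trans ht', rfl⟩

/-- the requirements are met -/
theorem not_SJT (hinj : Function.Injective f) (hh : IsOrder h)
    (hb : ∀ j, ∃ R, ∀ s, (S h f j s).2.1 ≤ R) (b : Bool) :
    ¬ SJT (side h f (!b)) (side h f b) := by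
  classical
  intro hS
  obtain ⟨T, hT, hTJ⟩ := hS h hh
  obtain ⟨F, hF, hFT⟩ := hT.ce
  obtain ⟨e, he⟩ := exists_Phi hF
  have hmem : ∀ m v, v ∈ T m ↔ ∃ u, (run e (seg (side h f b) u) (Nat.pair m v)).isSome = true := by
    intro m v
    have h1 := hFT (Nat.pair m v)
    simp only [Set.mem_ofPred_eq, Nat.unpair_pair] at h1
    rw [h1, ← he, Part.dom_iff_mem]
    constructor
    · rintro ⟨y, hy⟩
      obtain ⟨u, hu⟩ := mem_Phi.1 hy
      exact ⟨u, by rw [hu]; rfl⟩
    · rintro ⟨u, hu⟩
      obtain ⟨y, hy⟩ := Option.isSome_iff_exists.1 hu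
      exact ⟨y, mem_Phi.2 ⟨u, hy⟩⟩
  obtain ⟨j, hj1, hj2⟩ : ∃ j : ℕ, j.div2 = e ∧ j.bodd = b :=
    ⟨Nat.bit b e, by simp, by simp⟩
  obtain ⟨s₀, hn⟩ := exists_no_inj hinj j fun i _ => hb i
  -- only finitely many actions
  have hfin : ∃ s₁, s₀ ≤ s₁ ∧ ∀ t, s₁ ≤ t → ¬ Act h f j t := by
    obtain ⟨R, hR⟩ := hb j
    obtain ⟨s₁, hs₁⟩ := eventually_ge hinj (R + 1)
    refine ⟨max s₀ s₁, le_max_left _ _, fun t ht ha => ?_⟩
    have h1 := hR (t + 1)
    rw [S_act (hn t ((le_max_left _ _).trans ht)) ha] at h1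
    simp only at h1
    have h2 := hs₁ t ((le_max_right _ _).trans ht)
    have h3 := le_max_right (S h f j t).2.1 (f t)
    omega
  obtain ⟨s₁, hs₁, hno⟩ := hfin
  have hconst : ∀ t, s₁ ≤ t → S h f j t = S h f j s₁ := by
    intro t ht
    induction t, ht using Nat.le_induction with
    | base => rfl
    | succ t ht ih => rw [S_no (hn t (hs₁.trans ht)) (hno t ht), ih]
  -- uses of the true computations
  have hU : ∃ U, ∀ m < (S h f j s₁).1 + 1, ∀ v, v ∈ J (side h f (!b)) m →
      (run e (seg (side h f b) U) (Nat.pair m v)).isSome = true := by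
    generalize (S h f j s₁).1 + 1 = N
    induction N with
    | zero => exact ⟨0, fun m hm => absurd hm (Nat.not_lt_zero m)⟩
    | succ N ih =>
      obtain ⟨U, hU⟩ := ih
      have key : ∀ u u' k, u ≤ u' → (run e (seg (side h f b) u) k).isSome = true →
          (run e (seg (side h f b) u') k).isSome = true := by
        intro u u' k huu h1
        obtain ⟨y, hy⟩ := Option.isSome_iff_exists.1 h1
        rw [run_mono (seg_prefix _ huu) hy]
        rfl
      by_cases h1 : ∃ v, v ∈ J (side h f (!b)) N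
      · obtain ⟨v, hv⟩ := h1
        obtain ⟨u, hu⟩ := (hmem N v).1 (hTJ N v hv)
        refine ⟨max U u, fun m hm w hw => ?_⟩
        rcases Nat.lt_succ_iff_lt_or_eq.1 hm with h2 | h2
        · exact key _ _ _ (le_max_left _ _) (hU m h2 w hw)
        · subst h2
          have : w = v := Part.mem_unique hw hv
          rw [this]
          exact key _ _ _ (le_max_right _ _) hu
      · refine ⟨U, fun m hm w hw => ?_⟩
        rcases Nat.lt_succ_iff_lt_or_eq.1 hm with h2 | h2
        · exact hU m h2 w hw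
        · subst h2
          exact absurd ⟨w, hw⟩ h1
  obtain ⟨U, hU⟩ := hU
  obtain ⟨t, ht, hUt, htrue⟩ := exists_true hinj U s₁
  apply hno t ht
  intro m hm
  have hα : lseg (!j.bodd) (D h f t) (f t) = seg (side h f (!b)) (f t) := by
    rw [hj2]; exact lseg_D htrue
  have hβ : lseg j.bodd (D h f t) (f t) = seg (side h f b) (f t) := by
    rw [hj2]; exact lseg_D htrue
  rw [hα, hβ, hj1]
  unfold ok1
  cases hr : run m (seg (side h f (!b)) (f t)) m with
  | none => exact Or.inl rfl
  | some v =>
    right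
    simp only [Option.getD_some]
    have hvJ : v ∈ J (side h f (!b)) m := mem_J.2 ⟨_, hr⟩
    rw [hconst t ht] at hm ⊢
    refine ⟨?_, ?_⟩
    · obtain ⟨y, hy⟩ := Option.isSome_iff_exists.1 (hU m hm v hvJ)
      rw [run_mono (seg_prefix _ hUt) hy]
      rfl
    · by_contra hcon
      push Not at hcon
      obtain ⟨hcon1, hcon2⟩ := hcon
      rw [cnt_eq (inv2 j s₁).1] at hcon2
      have h3 : insert v (((S h f j s₁).2.2.toFinset.filter fun q => q.1 = m).image Prod.snd) ⊆
          T m := by
        intro w hw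
        rw [Finset.mem_insert] at hw
        rcases hw with rfl | hw
        · exact hTJ m w hvJ
        · rw [Finset.mem_image] at hw
          obtain ⟨q, hq, rfl⟩ := hw
          rw [Finset.mem_filter, List.mem_toFinset] at hq
          have h4 := inv1 (h := h) (f := f) j s₁ q hq.1
          rw [lseg_preserved hn hs₁ (le_refl _), hj1, hj2, hq.2] at h4
          exact (hmem m q.2).2 ⟨_, h4⟩
      have h4 := Finset.card_le_card h3
      have h5 : v ∉ (((S h f j s₁).2.2.toFinset.filter fun q => q.1 = m).image Prod.snd) := by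
        intro hw
        rw [Finset.mem_image] at hw
        obtain ⟨q, hq, hqv⟩ := hw
        rw [Finset.mem_filter, List.mem_toFinset] at hq
        apply hcon1
        have : q = (m, v) := Prod.ext hq.2 hqv
        rw [← this]; exact hq.1
      rw [Finset.card_insert_of_notMem h5] at h4
      have h6 : (((S h f j s₁).2.2.toFinset.filter fun q => q.1 = m).image Prod.snd).card =
          ((S h f j s₁).2.2.toFinset.filter fun q => q.1 = m).card := by
        apply Finset.card_image_of_injOn
        intro q hq q' hq' hqq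
        rw [Finset.mem_coe, Finset.mem_filter] at hq hq'
        exact Prod.ext (hq.2.trans hq'.2.symm) hqq
      rw [h6] at h4
      have := hT.card m
      omega

/-- **The splitting theorem.** -/
theorem splitting {E : Set ℕ} (hE : CE E) (hns : ¬ SJT E ∅) :
    ∃ A B : Set ℕ, CE A ∧ CE B ∧ A ∪ B = E ∧ Disjoint A B ∧ TLe A E ∧ TLe B E ∧
      ¬ SJT A B ∧ ¬ SJT B A := by
  classical
  have hinf : E.Infinite := by
    intro hfin
    apply hns
    intro g hg
    have hsub : ∀ n, {v | v ∈ J E n}.Subsingleton := fun n v hv w hw => Part.mem_unique hv hw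
    refine ⟨fun n => (hsub n).finite.toFinset, ⟨?_, fun n => ?_⟩, fun n v hv => ?_⟩
    · apply CEIn_of_CE
      refine RE.of_eq (CE_J (Comp_finite hfin)) ?_
      ext k
      simp
    · refine le_trans (Finset.card_le_one.2 fun a ha b hb => ?_) (hg.pos n)
      rw [Set.Finite.mem_toFinset] at ha hb
      exact hsub n ha hb
    · rw [Set.Finite.mem_toFinset]
      exact hv
  obtain ⟨f, hf, hinj, hfE⟩ := exists_injective hE hinf
  have hrange : Set.range f = E := by
    ext x
    rw [hfE]
    rfl
  unfold SJT at hns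
  push Not at hns
  obtain ⟨g, hg, hng⟩ := hns
  obtain ⟨sm, hsm, hsmn⟩ := exists_smn
  obtain ⟨h₁, hh₁, hle₁⟩ := exists_slow_order hsm hg
  obtain ⟨h, hh, hhp, hle⟩ := exists_prim_order hh₁
  have hle' : ∀ c n, c ≤ n → h (sm c n) ≤ g n := fun c n hcn => (hle _).trans (hle₁ c n hcn)
  have hb : ∀ j, ∃ R, ∀ s, (S h f j s).2.1 ≤ R := by
    intro j
    induction j using Nat.strong_induction_on with
    | _ j ih =>
      obtain ⟨s₀, hn⟩ := exists_no_inj hinj j ih
      by_cases hact : ∀ s₁, ∃ t, s₁ ≤ t ∧ Act h f j t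
      · exfalso
        obtain ⟨T, hT, hTJ⟩ := trace_of_act hn hact hinj hhp hf hg hsm hle' hsmn
        rw [hrange] at hTJ
        obtain ⟨n, v, hv, hv'⟩ := hng T hT
        exact hv' (hTJ n v hv)
      · push Not at hact
        obtain ⟨s₁, hs₁⟩ := hact
        exact bdd_of_no_act hn (le_max_left s₀ s₁)
          fun t ht => hs₁ t ((le_max_right _ _).trans ht)
  have hCE : ∀ b, CE (side h f b) := by
    intro b
    have h1 : CE {x | ∃ t, (fun (x t : ℕ) => decide (f t = x ∧ sd h f t = b)) x t = true} := by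
      apply CE_of_search
      have h2 : PrimrecPred fun a : ℕ × ℕ × Bool => a.2.1 = a.1 ∧ a.2.2 = b :=
        (Primrec.eq.comp (Primrec.fst.comp Primrec.snd) Primrec.fst).and
          (Primrec.eq.comp (Primrec.snd.comp Primrec.snd) (Primrec.const b))
      have h3 : Computable fun a : ℕ × ℕ => (a.1, f a.2, sd h f a.2) :=
        Computable.pair Computable.fst (Computable.pair (hf.comp Computable.snd)
          ((sd_comp hhp hf).comp Computable.snd))
      exact (h2.decide.to_comp.comp h3).of_eq fun a => rfl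
    refine RE.of_eq h1 ?_
    ext x
    simp [side]
  have hTL : ∀ b, TLe (side h f b) E := by
    intro b
    unfold TLe
    rw [← Pool.Agent.Helper743.TR_iff]
    let p : List ℕ → ℕ → ℕ → Option ℕ := fun σ x w =>
      if σ[x]? = some 0 then some 0
      else if σ[x]? = some 1 ∧ f w = x then some (if sd h f w = b then 1 else 0) else none
    have hp : Computable fun q : (List ℕ × ℕ) × ℕ => p q.1.1 q.1.2 q.2 := by
      have h2 : Primrec fun q : ((List ℕ × ℕ) × ℕ) × ℕ × Bool =>
          (if q.1.1.1[q.1.1.2]? = some 0 then some 0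
          else if q.1.1.1[q.1.1.2]? = some 1 ∧ q.2.1 = q.1.1.2 then
            some (if q.2.2 = b then 1 else 0) else none : Option ℕ) := by
        have c1 : Primrec fun q : ((List ℕ × ℕ) × ℕ) × ℕ × Bool => q.1.1.1[q.1.1.2]? :=
          Primrec.list_getElem?.comp (Primrec.fst.comp (Primrec.fst.comp Primrec.fst))
            (Primrec.snd.comp (Primrec.fst.comp Primrec.fst))
        refine Primrec.ite (Primrec.eq.comp c1 (Primrec.const _)) (Primrec.const _)
          (Primrec.ite ((Primrec.eq.comp c1 (Primrec.const _)).and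
            (Primrec.eq.comp (Primrec.fst.comp Primrec.snd)
              (Primrec.snd.comp (Primrec.fst.comp Primrec.fst))))
            (Primrec.option_some.comp (Primrec.ite (Primrec.eq.comp
              (Primrec.snd.comp Primrec.snd) (Primrec.const b)) (Primrec.const 1)
              (Primrec.const 0))) (Primrec.const none))
      have h3 : Computable fun q : (List ℕ × ℕ) × ℕ => (q, f q.2, sd h f q.2) :=
        Computable.pair Computable.id (Computable.pair (hf.comp Computable.snd)
          ((sd_comp hhp hf).comp Computable.snd))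
      exact (h2.to_comp.comp h3).of_eq fun q => rfl
    have hpre : ∀ x n, x < n → (Pool.Agent.Helper743.pre (chi E) n)[x]? = some (chi E x) := by
      intro x n hxn
      rw [Pool.Agent.Helper743.pre_getElem?, if_pos hxn]
    refine Pool.Agent.Helper743.cert (Pool.Agent.Helper743.TR.refl (chi E)) p hp
      (chi (side h f b)) ?_ ?_
    · intro x
      by_cases hx : x ∈ E
      · obtain ⟨w, hw⟩ := (hfE x).1 hx
        refine ⟨x + 1, w, ?_⟩
        simp only [p]
        rw [hpre x (x + 1) (Nat.lt_succ_self x)]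
        simp [chi, hx, hw]
      · refine ⟨x + 1, 0, ?_⟩
        simp only [p]
        rw [hpre x (x + 1) (Nat.lt_succ_self x)]
        simp [chi, hx]
    · intro x n w y hy
      by_cases hxn : x < n
      · simp only [p] at hy
        rw [hpre x n hxn] at hy
        by_cases hx : x ∈ E
        · have h1 : chi E x = 1 := by simp [chi, hx]
          rw [h1, if_neg (by simp)] at hy
          by_cases h2 : f w = x
          · rw [if_pos ⟨rfl, h2⟩, Option.some_inj] at hy
            rw [← hy]
            by_cases h3 : sd h f w = b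
            · rw [if_pos h3]
              have : x ∈ side h f b := ⟨w, h2, h3⟩
              simp [chi, this]
            · rw [if_neg h3]
              have : x ∉ side h f b := by
                rintro ⟨w', h4, h5⟩
                have : w' = w := hinj (h4.trans h2.symm)
                rw [this] at h5
                exact h3 h5
              simp [chi, this]
          · rw [if_neg (fun h3 => h2 h3.2)] at hy
            simp at hy
        · have h1 : chi E x = 0 := by simp [chi, hx]
          rw [h1, if_pos rfl, Option.some_inj] at hy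
          rw [← hy]
          have : x ∉ side h f b := by
            rintro ⟨w', h4, h5⟩
            exact hx ((hfE x).2 ⟨w', h4⟩)
          simp [chi, this]
      · have h1 : (Pool.Agent.Helper743.pre (chi E) n)[x]? = none := by
          rw [Pool.Agent.Helper743.pre_getElem?, if_neg hxn]
        simp only [p] at hy
        rw [h1] at hy
        simp at hy
  refine ⟨side h f true, side h f false, hCE _, hCE _, ?_, ?_, hTL _, hTL _, ?_, ?_⟩
  · rw [← hrange]
    exact union_side false
  · rw [Set.disjoint_left]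
    rintro x ⟨t, h1, h2⟩ ⟨t', h3, h4⟩
    have : t = t' := hinj (h1.trans h3.symm)
    rw [this, h4] at h2
    simp at h2
  · exact not_SJT hinj hh hb false
  · exact not_SJT hinj hh hb true

end Pool.Agent.V8H40.SJ
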