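import Pool.Agent.V8H40.SJ.Smn

/-!
# Slow order functions
-/

set_option autoImplicit false

namespace Pool.Agent.V8H40.SJ

open Nat.Partrec (Code)

/-- below every order function there is a primitive recursive one -/
theorem exists_prim_order {g : ℕ → ℕ} (hg : IsOrder g) :
    ∃ h : ℕ → ℕ, IsOrder h ∧ Primrec h ∧ ∀ n, h n ≤ g n := by
  obtain ⟨c, hc⟩ := Code.exists_code.1 (Partrec.nat_iff.1 hg.comp)
  have hev : ∀ n m w, Code.evaln n c m = some w → w = g m := by
    intro n m w h
    have := Code.evaln_sound h
    rw [hc] at this
    simpa using this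
  let H : ℕ → ℕ → ℕ := fun n k => Nat.rec (motive := fun _ => ℕ) 1
    (fun (m acc : ℕ) => max acc ((Code.evaln n c m).getD 0)) k
  have hH : ∀ n k, 1 ≤ H n k := by
    intro n k
    induction k with
    | zero => exact le_refl 1
    | succ k ih => exact ih.trans (le_max_left _ _)
  have hle : ∀ n k, k ≤ n + 1 → H n k ≤ g n := by
    intro n k
    induction k with
    | zero => intro _; exact hg.pos n
    | succ k ih =>
      intro hk
      refine max_le (ih (by omega)) ?_
      cases h : Code.evaln n c k with
      | none => exact Nat.zero_le _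
      | some w =>
        have := hev _ _ _ h
        simp only [Option.getD_some]
        rw [this]
        exact hg.mono (by omega)
  have hge : ∀ n k m w, m < k → Code.evaln n c m = some w → w ≤ H n k := by
    intro n k
    induction k with
    | zero => intro m w h; omega
    | succ k ih =>
      intro m w h h2
      rcases Nat.lt_succ_iff_lt_or_eq.1 h with h3 | h3
      · exact (ih m w h3 h2).trans (le_max_left _ _)
      · subst h3
        have : w ≤ (Code.evaln n c m).getD 0 := by rw [h2]; exact le_refl _
        exact this.trans (le_max_right _ _)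
  have hmono : ∀ n n' k k', n ≤ n' → k ≤ k' → H n k ≤ H n' k' := by
    intro n n' k k' hn hk
    induction k with
    | zero => exact hH _ _
    | succ k ih =>
      refine max_le (ih (by omega)) ?_
      cases h : Code.evaln n c k with
      | none => exact Nat.zero_le _
      | some w => exact hge n' k' k w (by omega) (Code.evaln_mono hn h)
  refine ⟨fun n => H n (n + 1), ?_, ?_, fun n => hle n (n + 1) (le_refl _)⟩
  swap
  · have h1 : Primrec₂ fun (n : ℕ) (b : ℕ × ℕ) =>
        max b.2 ((Code.evaln n c b.1).getD 0) := by
      refine Primrec.nat_max.comp (Primrec.snd.comp Primrec.snd) ?_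
      refine Primrec.option_getD.comp ?_ (Primrec.const 0)
      exact Code.primrec_evaln.comp ((Primrec.fst.pair (Primrec.const c)).pair
        (Primrec.fst.comp Primrec.snd))
    exact Primrec.nat_rec' Primrec.succ (Primrec.const 1) h1
  refine ⟨?_, fun n => hH n (n + 1), fun a b hab => hmono a b (a + 1) (b + 1) hab (by omega), ?_⟩
  · have h1 : Primrec₂ fun (n : ℕ) (b : ℕ × ℕ) =>
        max b.2 ((Code.evaln n c b.1).getD 0) := by
      refine Primrec.nat_max.comp (Primrec.snd.comp Primrec.snd) ?_
      refine Primrec.option_getD.comp ?_ (Primrec.const 0)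
      exact Code.primrec_evaln.comp ((Primrec.fst.pair (Primrec.const c)).pair
        (Primrec.fst.comp Primrec.snd))
    exact (Primrec.nat_rec' Primrec.succ (Primrec.const 1) h1).to_comp
  · intro k
    obtain ⟨m, hm⟩ := hg.unb k
    have h1 : g m ∈ Code.eval c m := by rw [hc]; simp
    obtain ⟨t, ht⟩ := Code.evaln_complete.1 h1
    have h2 := le_max_left m t
    exact ⟨max m t, hm.trans (hge (max m t) (max m t + 1) m _ (by omega)
      (Code.evaln_mono (le_max_right m t) ht))⟩

/-- auxiliary sums -/
def slM (s : ℕ → ℕ → ℕ) (n : ℕ) : ℕ → ℕ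
  | 0 => 0
  | k + 1 => slM s n k + s k n

/-- auxiliary majorant -/
def slP (s : ℕ → ℕ → ℕ) : ℕ → ℕ
  | 0 => slM s 0 1
  | k + 1 => slP s k + 1 + slM s (k + 1) (k + 1 + 1)

/-- auxiliary inverse -/
def slQ (p : ℕ → ℕ) : ℕ → ℕ
  | 0 => 0
  | k + 1 => if k + 1 ≤ p (slQ p k) then slQ p k else slQ p k + 1

/-- an order function which is small on the values of a computable parametrisation -/
theorem exists_slow_order {s : ℕ → ℕ → ℕ} (hs : Computable₂ s) {g : ℕ → ℕ} (hg : IsOrder g) :
    ∃ h : ℕ → ℕ, IsOrder h ∧ ∀ c n, c ≤ n → h (s c n) ≤ g n := by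
  have hm1 : ∀ n k c, c < k → s c n ≤ slM s n k := by
    intro n k
    induction k with
    | zero => intro c h; omega
    | succ k ih =>
      intro c h
      rw [slM]
      rcases Nat.lt_succ_iff_lt_or_eq.1 h with h3 | h3
      · exact (ih c h3).trans (Nat.le_add_right _ _)
      · subst h3; exact Nat.le_add_left _ _
  have hm2 : Computable fun n => slM s n (n + 1) := by
    have h1 : Computable₂ fun (n : ℕ) (b : ℕ × ℕ) => b.2 + s b.1 n := by
      refine Primrec.nat_add.to_comp.comp (Computable.snd.comp Computable.snd) ?_
      exact hs.comp (Computable.fst.comp Computable.snd) Computable.fst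
    refine (Computable.nat_rec Computable.succ (Computable.const 0) h1).of_eq fun n => ?_
    have : ∀ k, (Nat.rec 0 (fun y IH => (fun (n : ℕ) (b : ℕ × ℕ) => b.2 + s b.1 n) n (y, IH)) k : ℕ)
        = slM s n k := by
      intro k
      induction k with
      | zero => rfl
      | succ k ih => rw [slM, ← ih]
    exact this (n + 1)
  have hp : Computable (slP s) := by
    have h1 : Computable₂ fun (_ : ℕ) (b : ℕ × ℕ) =>
        b.2 + 1 + slM s (b.1 + 1) (b.1 + 1 + 1) := by
      refine Primrec.nat_add.to_comp.comp (Computable.succ.comp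
        (Computable.snd.comp Computable.snd)) ?_
      exact hm2.comp (Computable.succ.comp (Computable.fst.comp Computable.snd))
    refine (Computable.nat_rec Computable.id (Computable.const (slM s 0 1)) h1).of_eq fun n => ?_
    induction n with
    | zero => rfl
    | succ n ih =>
      rw [slP, ← ih]
      rfl
  have hp1 : ∀ n, slM s n (n + 1) ≤ slP s n := by
    intro n
    cases n with
    | zero => exact le_refl _
    | succ n => exact Nat.le_add_left _ _
  have hp2 : StrictMono (slP s) := by
    refine strictMono_nat_of_lt_succ fun n => ?_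
    rw [slP]
    omega
  generalize slP s = p at hp hp1 hp2
  have hq : Computable (slQ p) := by
    have h2 : Primrec fun b : ℕ × ℕ × ℕ => if b.1 + 1 ≤ b.2.2 then b.2.1 else b.2.1 + 1 := by
      refine Primrec.ite ?_ (Primrec.fst.comp Primrec.snd)
        (Primrec.succ.comp (Primrec.fst.comp Primrec.snd))
      exact Primrec.nat_le.comp (Primrec.succ.comp Primrec.fst) (Primrec.snd.comp Primrec.snd)
    have h3 : Computable fun b : ℕ × ℕ => (b.1, b.2, p b.2) :=
      Computable.pair Computable.fst (Computable.pair Computable.snd (hp.comp Computable.snd))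
    have h1 : Computable₂ fun (_ : ℕ) (b : ℕ × ℕ) =>
        if b.1 + 1 ≤ p b.2 then b.2 else b.2 + 1 :=
      (h2.to_comp.comp h3).comp Computable.snd
    refine (Computable.nat_rec Computable.id (Computable.const 0) h1).of_eq fun n => ?_
    induction n with
    | zero => rfl
    | succ n ih =>
      rw [slQ, ← ih]
      rfl
  have hq1 : ∀ k, k ≤ p (slQ p k) := by
    intro k
    induction k with
    | zero => exact Nat.zero_le _
    | succ k ih =>
      rw [slQ]
      by_cases h : k + 1 ≤ p (slQ p k)
      · rw [if_pos h]; exact h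
      · rw [if_neg h]
        have := hp2 (Nat.lt_succ_self (slQ p k))
        simp only [Nat.succ_eq_add_one] at this
        omega
  have hq2 : ∀ k n, k ≤ p n → slQ p k ≤ n := by
    intro k
    induction k with
    | zero => intro n _; exact Nat.zero_le _
    | succ k ih =>
      intro n hk
      have h1 := ih n (by omega)
      rw [slQ]
      by_cases h : k + 1 ≤ p (slQ p k)
      · rw [if_pos h]; exact h1
      · rw [if_neg h]
        by_contra h2
        have : slQ p k = n := by omega
        rw [this] at h
        exact h hk
  have hq3 : Monotone (slQ p) := by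
    refine monotone_nat_of_le_succ fun k => ?_
    rw [slQ]
    by_cases h : k + 1 ≤ p (slQ p k)
    · rw [if_pos h]
    · rw [if_neg h]; omega
  refine ⟨fun k => g (slQ p k), ⟨hg.comp.comp hq, fun n => hg.pos _,
    fun a b hab => hg.mono (hq3 hab), fun k => ?_⟩, fun c n hcn => ?_⟩
  · obtain ⟨n, hn⟩ := hg.unb k
    refine ⟨p n, hn.trans (hg.mono ?_)⟩
    by_contra h
    push Not at h
    have := hp2 h
    have := hq1 (p n)
    omega
  · refine hg.mono (hq2 _ _ ?_)
    exact (hm1 n (n + 1) c (by omega)).trans (hp1 n)

end Pool.Agent.V8H40.SJ
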