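import Pool.Agent.V8H40.SJ.Defs
import Pool.Agent.Helper743.Oracle
import Pool.Agent.V8H40.FS.Base

/-!
# Approximations to the universal functional
-/

set_option autoImplicit false

namespace Pool.Agent.V8H40.SJ

open Nat.Partrec (Code)
open Pool.Agent.Helper743 (pre pre_length pre_succ pre_getElem? pre_prefix)

theorem seg_eq_pre (X : Set ℕ) (t : ℕ) : seg X t = pre (chi X) t := rfl

@[simp] theorem length_seg (X : Set ℕ) (t : ℕ) : (seg X t).length = t := by simp [seg]

theorem seg_prefix (X : Set ℕ) {n m : ℕ} (h : n ≤ m) : seg X n <+: seg X m := pre_prefix _ h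

theorem take_seg (X : Set ℕ) {n m : ℕ} (h : n ≤ m) : (seg X m).take n = seg X n := by
  simp [seg, ← List.map_take, List.take_range, h]

theorem seg_congr {X Y : Set ℕ} {n : ℕ} (h : ∀ i < n, (i ∈ X ↔ i ∈ Y)) : seg X n = seg Y n := by
  apply List.map_congr_left
  intro i hi
  rw [List.mem_range] at hi
  by_cases hX : i ∈ X
  · have hY : i ∈ Y := (h i hi).1 hX
    simp only [chi, hX, hY, if_true]
  · have hY : i ∉ Y := fun h' => hX ((h i hi).2 h')
    simp only [chi, hX, hY, if_false]

/-- one attempt at a computation from a finite string -/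
def att (e : ℕ) (σ : List ℕ) (k p : ℕ) : Option ℕ :=
  Code.evaln p.unpair.1 (Denumerable.ofNat Code e)
    (Nat.pair (Encodable.encode (σ.take p.unpair.2)) k)

/-- the first successful attempt before `l` -/
def runN (e : ℕ) (σ : List ℕ) (k : ℕ) : ℕ → Option ℕ
  | 0 => none
  | l + 1 => (runN e σ k l).orElse fun _ => att e σ k l

/-- the value computed from the string `σ` -/
def run (e : ℕ) (σ : List ℕ) (k : ℕ) : Option ℕ := runN e σ k σ.length

theorem runN_eq_some {e : ℕ} {σ : List ℕ} {k l v : ℕ} : runN e σ k l = some v ↔
    ∃ p < l, att e σ k p = some v ∧ ∀ q < p, att e σ k q = none := by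
  induction l with
  | zero => simp [runN]
  | succ l ih =>
    unfold runN
    cases h : runN e σ k l with
    | some w =>
      have h1 : ∃ p < l, att e σ k p = some w ∧ ∀ q < p, att e σ k q = none := by
        have : ∀ l w, runN e σ k l = some w →
            ∃ p < l, att e σ k p = some w ∧ ∀ q < p, att e σ k q = none := by
          intro l
          induction l with
          | zero => intro w h; simp [runN] at h
          | succ l ih =>
            intro w h
            unfold runN at h
            cases h2 : runN e σ k l with
            | some w' =>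
              rw [h2] at h
              simp only [Option.orElse_some, Option.some_inj] at h
              subst h
              obtain ⟨p, hp, h3, h4⟩ := ih _ h2
              exact ⟨p, by omega, h3, h4⟩
            | none =>
              rw [h2] at h
              simp only [Option.orElse_none] at h
              refine ⟨l, by omega, h, ?_⟩
              intro q hq
              have h5 : ∀ l, runN e σ k l = none → ∀ q < l, att e σ k q = none := by
                intro l
                induction l with
                | zero => intro _ q hq; omega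
                | succ l ih =>
                  intro h q hq
                  unfold runN at h
                  cases h6 : runN e σ k l with
                  | some w => rw [h6] at h; simp at h
                  | none =>
                    rw [h6] at h
                    simp only [Option.orElse_none] at h
                    rcases Nat.lt_succ_iff_lt_or_eq.1 hq with h7 | h7
                    · exact ih h6 q h7
                    · rw [h7]; exact h
              exact h5 l h2 q hq
        exact this l w h
      obtain ⟨p, hp, h3, h4⟩ := h1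
      simp only [Option.orElse_some, Option.some_inj]
      constructor
      · rintro rfl
        exact ⟨p, by omega, h3, h4⟩
      · rintro ⟨p', hp', h3', h4'⟩
        have : p = p' := by
          rcases lt_trichotomy p p' with h5 | h5 | h5
          · rw [h4' p h5] at h3; simp at h3
          · exact h5
          · rw [h4 p' h5] at h3'; simp at h3'
        subst this
        rw [h3, Option.some_inj] at h3'
        exact h3'
    | none =>
      simp only [Option.orElse_none]
      have h5 : ∀ l, runN e σ k l = none → ∀ q < l, att e σ k q = none := by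
        intro l
        induction l with
        | zero => intro _ q hq; omega
        | succ l ih =>
          intro h q hq
          unfold runN at h
          cases h6 : runN e σ k l with
          | some w => rw [h6] at h; simp at h
          | none =>
            rw [h6] at h
            simp only [Option.orElse_none] at h
            rcases Nat.lt_succ_iff_lt_or_eq.1 hq with h7 | h7
            · exact ih h6 q h7
            · rw [h7]; exact h
      constructor
      · intro h1
        exact ⟨l, by omega, h1, fun q hq => h5 l h q hq⟩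
      · rintro ⟨p, hp, h1, h2⟩
        rcases Nat.lt_succ_iff_lt_or_eq.1 hp with h7 | h7
        · rw [h5 l h p h7] at h1; simp at h1
        · rw [← h7]; exact h1

theorem att_congr {e : ℕ} {σ τ : List ℕ} {k p : ℕ} (h : σ <+: τ) (hp : p < σ.length) :
    att e σ k p = att e τ k p := by
  obtain ⟨ρ, rfl⟩ := h
  have h1 : p.unpair.2 ≤ σ.length := (Nat.unpair_right_le p).trans hp.le
  unfold att
  rw [List.take_append_of_le_length h1]

theorem run_eq_some {e : ℕ} {σ : List ℕ} {k v : ℕ} : run e σ k = some v ↔
    ∃ p < σ.length, att e σ k p = some v ∧ ∀ q < p, att e σ k q = none := runN_eq_some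

theorem run_mono {e : ℕ} {σ τ : List ℕ} {k v : ℕ} (h : σ <+: τ) (hv : run e σ k = some v) :
    run e τ k = some v := by
  rw [run_eq_some] at *
  obtain ⟨p, hp, h1, h2⟩ := hv
  refine ⟨p, hp.trans_le h.length_le, ?_, fun q hq => ?_⟩
  · rw [← att_congr h hp]; exact h1
  · rw [← att_congr h (hq.trans hp)]; exact h2 q hq

theorem mem_rfindOpt {f : ℕ → Option ℕ} {v : ℕ} : v ∈ Nat.rfindOpt f ↔
    ∃ p, f p = some v ∧ ∀ q < p, f q = none := by
  unfold Nat.rfindOpt
  rw [Part.mem_bind_iff]
  constructor
  · rintro ⟨n, hn, hv⟩
    have hn' := Nat.mem_rfind.1 hn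
    refine ⟨n, by simpa using hv, fun q hq => ?_⟩
    have := hn'.2 hq
    simp only [Part.coe_some, Part.mem_some_iff] at this
    cases h : f q with
    | none => rfl
    | some w => rw [h] at this; simp at this
  · rintro ⟨p, h1, h2⟩
    refine ⟨p, ?_, by simpa using h1⟩
    refine Nat.mem_rfind.2 ⟨by simp [h1], fun {m} hm => by simp [h2 m hm]⟩

theorem att_seg (e : ℕ) (X : Set ℕ) (k p t : ℕ) (hp : p < t) : att e (seg X t) k p =
    Code.evaln p.unpair.1 (Denumerable.ofNat Code e)
    (Nat.pair (Encodable.encode (seg X p.unpair.2)) k) := by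
  unfold att
  rw [take_seg X ((Nat.unpair_right_le p).trans hp.le)]

theorem mem_Phi {e : ℕ} {X : Set ℕ} {k v : ℕ} : v ∈ Phi e X k ↔
    ∃ u, run e (seg X u) k = some v := by
  unfold Phi
  rw [mem_rfindOpt]
  constructor
  · rintro ⟨p, h1, h2⟩
    refine ⟨p + 1, ?_⟩
    rw [run_eq_some]
    refine ⟨p, by simp, ?_, fun q hq => ?_⟩
    · rw [att_seg _ _ _ _ _ (Nat.lt_succ_self p)]; exact h1
    · rw [att_seg _ _ _ _ _ (by omega)]; exact h2 q hq
  · rintro ⟨u, hu⟩
    rw [run_eq_some] at hu
    obtain ⟨p, hp, h1, h2⟩ := hu
    rw [length_seg] at hp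
    refine ⟨p, ?_, fun q hq => ?_⟩
    · rw [← att_seg _ _ _ _ _ hp]; exact h1
    · rw [← att_seg _ _ _ _ _ (hq.trans hp)]; exact h2 q hq

theorem mem_J {X : Set ℕ} {n v : ℕ} : v ∈ J X n ↔ ∃ u, run n (seg X u) n = some v := mem_Phi

theorem att_prim : Primrec fun a : (ℕ × List ℕ) × ℕ × ℕ => att a.1.1 a.1.2 a.2.1 a.2.2 := by
  unfold att
  have c1 : Primrec fun a : (ℕ × List ℕ) × ℕ × ℕ => a.2.2.unpair.1 :=
    Primrec.fst.comp (Primrec.unpair.comp (Primrec.snd.comp Primrec.snd))
  have c2 : Primrec fun a : (ℕ × List ℕ) × ℕ × ℕ => a.2.2.unpair.2 :=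
    Primrec.snd.comp (Primrec.unpair.comp (Primrec.snd.comp Primrec.snd))
  have c3 : Primrec fun a : (ℕ × List ℕ) × ℕ × ℕ => Denumerable.ofNat Code a.1.1 :=
    (Primrec.ofNat Code).comp (Primrec.fst.comp Primrec.fst)
  have c4 : Primrec fun a : (ℕ × List ℕ) × ℕ × ℕ => a.1.2.take a.2.2.unpair.2 :=
    Primrec.list_take.comp c2 (Primrec.snd.comp Primrec.fst)
  have c5 : Primrec fun a : (ℕ × List ℕ) × ℕ × ℕ =>
      Nat.pair (Encodable.encode (a.1.2.take a.2.2.unpair.2)) a.2.1 :=
    Primrec₂.natPair.comp (Primrec.encode.comp c4) (Primrec.fst.comp Primrec.snd)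
  exact Code.primrec_evaln.comp ((c1.pair c3).pair c5)

theorem run_prim : Primrec fun a : (ℕ × List ℕ) × ℕ => run a.1.1 a.1.2 a.2 := by
  have h1 : Primrec fun a : (ℕ × List ℕ) × ℕ => a.1.2.length :=
    Primrec.list_length.comp (Primrec.snd.comp Primrec.fst)
  have h2 : Primrec₂ fun (a : (ℕ × List ℕ) × ℕ) (b : ℕ × Option ℕ) =>
      (b.2 <|> att a.1.1 a.1.2 a.2 b.1) := by
    refine Primrec.option_orElse.comp (Primrec.snd.comp Primrec.snd) ?_
    exact att_prim.comp ((Primrec.fst.comp Primrec.fst).pair
      ((Primrec.snd.comp Primrec.fst).pair (Primrec.fst.comp Primrec.snd)))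
  refine (Primrec.nat_rec' h1 (Primrec.const none) h2).of_eq fun a => ?_
  unfold run
  generalize a.1.2.length = n
  induction n with
  | zero => rfl
  | succ n ih =>
    simp only [runN]
    rw [← ih]
    rfl

/-- closure form -/
theorem run_comp {α : Type*} [Primcodable α] {f h : α → ℕ} {g : α → List ℕ} (hf : Primrec f)
    (hg : Primrec g) (hh : Primrec h) : Primrec fun a => run (f a) (g a) (h a) :=
  run_prim.comp ((hf.pair hg).pair hh)

/-- universality: every function partial recursive in `X` is computed by a machine -/
theorem exists_Phi {X : Set ℕ} {f : ℕ →. ℕ} (hf : Nat.RecursiveIn {(chi X : ℕ →. ℕ)} f) :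
    ∃ e, ∀ n, Phi e X n = f n := by
  obtain ⟨ev, hc, hm, hv⟩ := Pool.Agent.Helper743.use_principle (chi X) f hf
  have h1 : Partrec fun z : ℕ => (((Encodable.decode (α := List ℕ) z.unpair.1).bind
      fun σ => ev σ z.unpair.2 : Option ℕ) : Part ℕ) := by
    refine Computable.ofOption ?_
    refine Computable.option_bind (Computable.decode.comp
      (Computable.fst.comp Computable.unpair)) ?_
    exact hc.comp Computable.snd (Computable.snd.comp (Computable.unpair.comp Computable.fst))
  obtain ⟨c, hc'⟩ := Code.exists_code.1 (Partrec.nat_iff.1 h1)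
  refine ⟨Encodable.encode c, fun n => ?_⟩
  have key : ∀ t s w, Code.evaln s c (Nat.pair (Encodable.encode (seg X t)) n) = some w →
      ev (seg X t) n = some w := by
    intro t s w h
    have h2 := Code.evaln_sound h
    rw [hc'] at h2
    simpa using h2
  have key2 : ∀ t w, ev (seg X t) n = some w →
      ∃ s, Code.evaln s c (Nat.pair (Encodable.encode (seg X t)) n) = some w := by
    intro t w h
    have h2 : w ∈ Code.eval c (Nat.pair (Encodable.encode (seg X t)) n) := by
      rw [hc']
      simpa using h
    exact Code.evaln_complete.1 h2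
  ext v
  unfold Phi
  rw [Denumerable.ofNat_encode, mem_rfindOpt, hv]
  constructor
  · rintro ⟨p, hp, -⟩
    exact ⟨_, key _ _ _ hp⟩
  · rintro ⟨t, ht⟩
    rw [← seg_eq_pre] at ht
    obtain ⟨s, hs⟩ := key2 t v ht
    have hex : ∃ p : ℕ, (Code.evaln p.unpair.1 c
        (Nat.pair (Encodable.encode (seg X p.unpair.2)) n)).isSome := by
      refine ⟨Nat.pair s t, ?_⟩
      simp only [Nat.unpair_pair]
      rw [hs]; rfl
    classical
    refine ⟨Nat.find hex, ?_, fun q hq => ?_⟩
    · obtain ⟨w, hw⟩ := Option.isSome_iff_exists.1 (Nat.find_spec hex)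
      have h3 := key _ _ _ hw
      have h4 : w = v := by
        rcases le_total t (Nat.find hex).unpair.2 with h5 | h5
        · have := hm _ _ _ _ (seg_prefix X h5) ht
          rw [this, Option.some_inj] at h3
          exact h3.symm
        · have := hm _ _ _ _ (seg_prefix X h5) h3
          rw [ht, Option.some_inj] at this
          exact this.symm
      rw [hw, h4]
    · have := Nat.find_min hex hq
      simpa using this

end Pool.Agent.V8H40.SJ
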