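import Pool.Agent.V8H40.SJ.Run

/-!
# Parametrisation, orders, traces of computable oracles
-/

set_option autoImplicit false

namespace Pool.Agent.V8H40.SJ

open Nat.Partrec (Code)

theorem Phi_of_eval {e : ℕ} {X : Set ℕ} {k v : ℕ}
    (h1 : ∀ t w, w ∈ Code.eval (Denumerable.ofNat Code e)
      (Nat.pair (Encodable.encode (seg X t)) k) → w = v)
    (h2 : ∃ t, v ∈ Code.eval (Denumerable.ofNat Code e)
      (Nat.pair (Encodable.encode (seg X t)) k)) : v ∈ Phi e X k := by
  classical
  obtain ⟨t, ht⟩ := h2
  obtain ⟨s, hs⟩ := Code.evaln_complete.1 ht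
  have hex : ∃ p : ℕ, (Code.evaln p.unpair.1 (Denumerable.ofNat Code e)
      (Nat.pair (Encodable.encode (seg X p.unpair.2)) k)).isSome := by
    refine ⟨Nat.pair s t, ?_⟩
    simp only [Nat.unpair_pair]
    rw [Option.isSome_iff_exists]
    exact ⟨v, hs⟩
  unfold Phi
  rw [mem_rfindOpt]
  refine ⟨Nat.find hex, ?_, fun q hq => ?_⟩
  · obtain ⟨w, hw⟩ := Option.isSome_iff_exists.1 (Nat.find_spec hex)
    have h3 := h1 _ _ (Code.evaln_sound hw)
    rw [hw, h3]
  · have := Nat.find_min hex hq
    simpa using this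

/-- the pointwise maximum of two strings -/
def mx (σ τ : List ℕ) : List ℕ :=
  (List.range σ.length).map fun i => max (σ.getD i 0) (τ.getD i 0)

theorem mx_prim : Primrec₂ mx := by
  unfold mx
  refine Primrec.list_map (Primrec.list_range.comp (Primrec.list_length.comp Primrec.fst)) ?_
  refine Primrec.nat_max.comp ?_ ?_
  · exact (Primrec.list_getD 0).comp (Primrec.fst.comp Primrec.fst) Primrec.snd
  · exact (Primrec.list_getD 0).comp (Primrec.snd.comp Primrec.fst) Primrec.snd

theorem seg_getD (X : Set ℕ) {t i : ℕ} (h : i < t) : (seg X t).getD i 0 = chi X i := by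
  unfold seg
  rw [List.getD_eq_getElem?_getD]
  simp [h]

theorem mx_seg (A B : Set ℕ) (t : ℕ) : mx (seg A t) (seg B t) = seg (A ∪ B) t := by
  unfold mx
  rw [length_seg]
  apply List.map_congr_left
  intro i hi
  rw [List.mem_range] at hi
  rw [seg_getD A hi, seg_getD B hi]
  by_cases h1 : i ∈ A <;> by_cases h2 : i ∈ B <;> simp [chi, h1, h2]

/-- a set is computable if its initial segments are -/
def Comp (B : Set ℕ) : Prop := Computable fun t => seg B t

theorem exists_smn : ∃ s : ℕ → ℕ → ℕ, Computable₂ s ∧ ∀ B : Set ℕ, Comp B → ∃ c,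
    ∀ (A : Set ℕ) (n v : ℕ), v ∈ J (A ∪ B) n → v ∈ J A (s c n) := by
  -- input ⟨⟨c, n⟩, ⟨σ, k⟩⟩
  let G : ℕ →. ℕ := fun z => (Code.eval (Denumerable.ofNat Code z.unpair.1.unpair.1)
    (((Encodable.decode (α := List ℕ) z.unpair.2.unpair.1).getD []).length)).bind fun u =>
      ((run z.unpair.1.unpair.2 (mx ((Encodable.decode (α := List ℕ) z.unpair.2.unpair.1).getD [])
        ((Encodable.decode (α := List ℕ) u).getD [])) z.unpair.1.unpair.2 : Option ℕ) : Part ℕ)
  have c1 : Primrec fun z : ℕ => z.unpair.1.unpair.1 :=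
    Primrec.fst.comp (Primrec.unpair.comp (Primrec.fst.comp Primrec.unpair))
  have c2 : Primrec fun z : ℕ => z.unpair.1.unpair.2 :=
    Primrec.snd.comp (Primrec.unpair.comp (Primrec.fst.comp Primrec.unpair))
  have c3 : Primrec fun z : ℕ => z.unpair.2.unpair.1 :=
    Primrec.fst.comp (Primrec.unpair.comp (Primrec.snd.comp Primrec.unpair))
  have c4 : Primrec fun z : ℕ => (Encodable.decode (α := List ℕ) z.unpair.2.unpair.1).getD [] :=
    Primrec.option_getD.comp (Primrec.decode.comp c3) (Primrec.const [])
  have hG : Partrec G := by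
    refine Partrec.bind ?_ ?_
    · exact Code.eval_part.comp ((Primrec.ofNat Code).comp c1).to_comp
        (Primrec.list_length.comp c4).to_comp
    · refine Computable.ofOption (Primrec.to_comp ?_)
      refine run_comp (c2.comp Primrec.fst) ?_ (c2.comp Primrec.fst)
      refine mx_prim.comp (c4.comp Primrec.fst) ?_
      exact Primrec.option_getD.comp (Primrec.decode.comp Primrec.snd) (Primrec.const [])
  obtain ⟨g, hg⟩ := Code.exists_code.1 (Partrec.nat_iff.1 hG)
  refine ⟨fun c n => Encodable.encode (Code.curry g (Nat.pair c n)), ?_, ?_⟩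
  · exact (Primrec.encode.comp (Code.primrec₂_curry.comp (Primrec.const g)
      Primrec₂.natPair)).to_comp
  · intro B hB
    have h1 : Partrec fun t : ℕ => (Part.some (Encodable.encode (seg B t)) : Part ℕ) :=
      (Computable.encode.comp hB)
    obtain ⟨c, hc⟩ := Code.exists_code.1 (Partrec.nat_iff.1 h1)
    refine ⟨Encodable.encode c, fun A n v hv => ?_⟩
    have key : ∀ t w k, w ∈ Code.eval (Denumerable.ofNat Code
        (Encodable.encode (Code.curry g (Nat.pair (Encodable.encode c) n))))
        (Nat.pair (Encodable.encode (seg A t)) k) ↔ run n (seg (A ∪ B) t) n = some w := by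
      intro t w k
      rw [Denumerable.ofNat_encode, Code.eval_curry, hg]
      simp only [G, Nat.unpair_pair, Denumerable.ofNat_encode, Encodable.encodek,
        Option.getD_some, length_seg]
      rw [hc]
      simp [mx_seg]
    unfold J
    rw [mem_J] at hv
    obtain ⟨u, hu⟩ := hv
    apply Phi_of_eval
    · intro t w h
      rw [key] at h
      exact Part.mem_unique (mem_J.2 ⟨t, h⟩) (mem_J.2 ⟨u, hu⟩)
    · exact ⟨u, (key _ _ _).2 hu⟩

theorem Comp_finite {B : Set ℕ} (hB : B.Finite) : Comp B := by
  classical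
  unfold Comp seg
  have h1 : Primrec fun t : ℕ => (List.range t).map (chi B) := by
    refine Primrec.list_map Primrec.list_range ?_
    have h2 : Primrec (chi B) := by
      have h3 : PrimrecPred fun n : ℕ => n ∈ hB.toFinset.toList := by
        have : PrimrecRel fun (l : List ℕ) (n : ℕ) => ∃ a ∈ l, a = n :=
          PrimrecRel.exists_mem_list (R := fun a n => a = n) Primrec.eq
        refine (this.comp (Primrec.const hB.toFinset.toList) Primrec.id).of_eq fun n => ?_
        simp
      have h4 : Primrec fun n => if n ∈ hB.toFinset.toList then 1 else 0 :=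
        Primrec.ite h3 (Primrec.const 1) (Primrec.const 0)
      refine h4.of_eq fun n => ?_
      simp [chi]
    exact h2.comp Primrec.snd
  exact h1.to_comp

theorem CEIn_of_CE {S : Set ℕ} (X : Set ℕ) (hS : CE S) : CEIn X S := by
  have h1 : Partrec fun a : ℕ => (Part.assert (a ∈ S) fun _ => Part.some () : Part Unit) := hS
  have h2 : Partrec fun a : ℕ =>
      (Part.assert (a ∈ S) fun _ => Part.some () : Part Unit).map fun _ => (0 : ℕ) :=
    h1.map (Computable.const 0)
  refine ⟨_, (Partrec.nat_iff.1 h2).recursiveIn, fun n => ?_⟩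
  simp [Part.assert]

/-- the values of the jump function of a computable set are computably enumerable -/
theorem CE_J {X : Set ℕ} (hX : Comp X) : CE {k | k.unpair.2 ∈ J X k.unpair.1} := by
  let F : ℕ × List ℕ → Bool := fun b =>
        decide (run b.1.unpair.1 b.2 b.1.unpair.1 = some b.1.unpair.2)
  have hF : Primrec F := by
    have h4 : PrimrecPred fun b : ℕ × List ℕ =>
          run b.1.unpair.1 b.2 b.1.unpair.1 = some b.1.unpair.2 := by
      refine Primrec.eq.comp ?_ ?_
      · exact run_comp (Primrec.fst.comp (Primrec.unpair.comp Primrec.fst)) Primrec.snd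
            (Primrec.fst.comp (Primrec.unpair.comp Primrec.fst))
      · exact Primrec.option_some.comp (Primrec.snd.comp (Primrec.unpair.comp Primrec.fst))
    exact h4.decide
  have h0 : Computable fun a : ℕ × ℕ => (a.1, seg X a.2) :=
      Computable.pair Computable.fst (hX.comp Computable.snd)
  have h1 : Computable₂ fun (k u : ℕ) => F (k, seg X u) := hF.to_comp.comp h0
  have h2 : Partrec fun k : ℕ => Nat.rfind fun u =>
      (Part.some (F (k, seg X u)) : Part Bool) :=
    Partrec.rfind h1.partrec₂
  refine h2.dom_re.of_eq fun k => ?_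
  change _ ↔ k.unpair.2 ∈ J X k.unpair.1
  rw [mem_J]
  constructor
  · intro h
    obtain ⟨n, hn⟩ := Part.dom_iff_mem.1 h
    have := Nat.rfind_spec hn
    refine ⟨n, ?_⟩
    simpa [F] using this
  · rintro ⟨u, hu⟩
    refine Nat.rfind_dom.2 ⟨u, ?_, fun {m} _ => trivial⟩
    simp [F, hu]

end Pool.Agent.V8H40.SJ
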