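import Pool.Agent.V8H40.SJ.Cons

/-!
# Combinatorial properties of the construction
-/

set_option autoImplicit false

namespace Pool.Agent.V8H40.SJ

open Nat.Partrec (Code)

/-! ### Strings -/

theorem lseg_congr {b : Bool} {L L' : Hist} {u : ℕ}
    (h : ∀ i < u, ((i, b) ∈ L ↔ (i, b) ∈ L')) : lseg b L u = lseg b L' u := by
  apply List.map_congr_left
  intro i hi
  rw [List.mem_range] at hi
  simp only [h i hi]

@[simp] theorem length_lseg (b : Bool) (L : Hist) (u : ℕ) : (lseg b L u).length = u := by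
  simp [lseg]

theorem lseg_prefix (b : Bool) (L : Hist) {u v : ℕ} (h : u ≤ v) : lseg b L u <+: lseg b L v := by
  obtain ⟨k, rfl⟩ := Nat.exists_eq_add_of_le h
  induction k with
  | zero => simp
  | succ k ih =>
    refine (ih (by omega)).trans ?_
    unfold lseg
    rw [← Nat.add_assoc, List.range_succ, List.map_append]
    exact List.prefix_append _ _

theorem lseg_eq_seg {b : Bool} {L : Hist} {u : ℕ} {X : Set ℕ}
    (h : ∀ i < u, ((i, b) ∈ L ↔ i ∈ X)) : lseg b L u = seg X u := by
  apply List.map_congr_left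
  intro i hi
  rw [List.mem_range] at hi
  by_cases hX : i ∈ X
  · simp [chi, hX, (h i hi).2 hX]
  · have : (i, b) ∉ L := fun h' => hX ((h i hi).1 h')
    simp [chi, hX, this]

/-! ### The list of protected pairs -/

theorem mem_upd {α : List ℕ} {Q : List (ℕ × ℕ)} {n : ℕ} {q : ℕ × ℕ} :
    q ∈ upd α Q n ↔ q ∈ Q ∨ (q.1 < n ∧ run q.1 α q.1 = some q.2) := by
  induction n with
  | zero => simp [upd]
  | succ n ih =>
    rw [upd]
    cases hr : run n α n with
    | none =>
      rw [if_pos (Or.inl rfl), ih]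
      constructor
      · rintro (h | ⟨h1, h2⟩)
        · exact Or.inl h
        · exact Or.inr ⟨by omega, h2⟩
      · rintro (h | ⟨h1, h2⟩)
        · exact Or.inl h
        · rcases Nat.lt_succ_iff_lt_or_eq.1 h1 with h3 | h3
          · exact Or.inr ⟨h3, h2⟩
          · rw [h3, hr] at h2; simp at h2
    | some v =>
      simp only [Option.getD_some, reduceCtorEq, false_or]
      by_cases hv : (n, v) ∈ upd α Q n
      · rw [if_pos hv, ih]
        constructor
        · rintro (h | ⟨h1, h2⟩)
          · exact Or.inl h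
          · exact Or.inr ⟨by omega, h2⟩
        · rintro (h | ⟨h1, h2⟩)
          · exact Or.inl h
          · rcases Nat.lt_succ_iff_lt_or_eq.1 h1 with h3 | h3
            · exact Or.inr ⟨h3, h2⟩
            · rw [h3, hr, Option.some_inj] at h2
              have h5 : q = (n, v) := Prod.ext h3 h2.symm
              have h6 : q ∈ upd α Q n := by rw [h5]; exact hv
              rcases ih.1 h6 with h7 | h7
              · exact Or.inl h7
              · exact Or.inr h7
      · rw [if_neg hv, List.mem_cons, ih]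
        constructor
        · rintro (h | h | ⟨h1, h2⟩)
          · rw [h]; exact Or.inr ⟨Nat.lt_succ_self _, hr⟩
          · exact Or.inl h
          · exact Or.inr ⟨by omega, h2⟩
        · rintro (h | ⟨h1, h2⟩)
          · exact Or.inr (Or.inl h)
          · rcases Nat.lt_succ_iff_lt_or_eq.1 h1 with h3 | h3
            · exact Or.inr (Or.inr ⟨h3, h2⟩)
            · rw [h3, hr, Option.some_inj] at h2
              exact Or.inl (Prod.ext h3 h2.symm)

theorem upd_nodup {α : List ℕ} {Q : List (ℕ × ℕ)} (hQ : Q.Nodup) (n : ℕ) :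
    (upd α Q n).Nodup := by
  induction n with
  | zero => exact hQ
  | succ n ih =>
    rw [upd]
    by_cases h : run n α n = none ∨ (n, (run n α n).getD 0) ∈ upd α Q n
    · rw [if_pos h]; exact ih
    · rw [if_neg h]
      push Not at h
      exact List.nodup_cons.2 ⟨h.2, ih⟩

theorem cnt_eq {Q : List (ℕ × ℕ)} (hQ : Q.Nodup) (m : ℕ) :
    cnt Q m = (Q.toFinset.filter fun q => q.1 = m).card := by
  unfold cnt
  rw [← List.toFinset_card_of_nodup (hQ.filter _), List.toFinset_filter]
  congr 1
  ext q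
  simp

theorem cnt_upd {α : List ℕ} {Q : List (ℕ × ℕ)} (hQ : Q.Nodup) {n m k : ℕ}
    (h1 : cnt Q m ≤ k)
    (h2 : m < n → ∀ v, run m α m = some v → (m, v) ∈ Q ∨ cnt Q m < k) :
    cnt (upd α Q n) m ≤ k := by
  rw [cnt_eq hQ] at h1 h2
  rw [cnt_eq (upd_nodup hQ n)]
  by_cases hm : m < n ∧ ∃ v, run m α m = some v ∧ (m, v) ∉ Q
  · obtain ⟨hm, v, hv, hvQ⟩ := hm
    have h3 : (Q.toFinset.filter fun q => q.1 = m).card < k := (h2 hm v hv).resolve_left hvQ
    have h4 : ((upd α Q n).toFinset.filter fun q => q.1 = m) ⊆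
        insert (m, v) (Q.toFinset.filter fun q => q.1 = m) := by
      intro q hq
      rw [Finset.mem_filter, List.mem_toFinset, mem_upd] at hq
      rw [Finset.mem_insert, Finset.mem_filter, List.mem_toFinset]
      obtain ⟨hq1 | ⟨_, hq1⟩, hq2⟩ := hq
      · exact Or.inr ⟨hq1, hq2⟩
      · rw [hq2, hv, Option.some_inj] at hq1
        exact Or.inl (Prod.ext hq2 hq1.symm)
    exact (Finset.card_le_card h4).trans ((Finset.card_insert_le _ _).trans h3)
  · push Not at hm
    refine le_trans (Finset.card_le_card ?_) h1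
    intro q hq
    rw [Finset.mem_filter, List.mem_toFinset, mem_upd] at hq
    rw [Finset.mem_filter, List.mem_toFinset]
    obtain ⟨hq1 | ⟨hq0, hq1⟩, hq2⟩ := hq
    · exact ⟨hq1, hq2⟩
    · rw [hq2] at hq1 hq0
      have := hm hq0 _ hq1
      refine ⟨?_, hq2⟩
      have h5 : q = (m, q.2) := Prod.ext hq2 rfl
      rw [h5]; exact this

/-! ### The run -/

variable {h f : ℕ → ℕ}

/-- the state of requirement `j` at stage `s` -/
noncomputable def S (h f : ℕ → ℕ) (j s : ℕ) : State := st h j (D h f s)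

/-- the side chosen at stage `s` -/
noncomputable def sd (h f : ℕ → ℕ) (s : ℕ) : Bool := dec h (D h f s) (f s)

/-- injury -/
def Inj (h f : ℕ → ℕ) (j s : ℕ) : Prop := sd h f s = j.bodd ∧ f s < (S h f j s).2.1

/-- action -/
def Act (h f : ℕ → ℕ) (j s : ℕ) : Prop := act h j (D h f s) (f s) (S h f j s)

/-- the set of elements put on side `b` -/
def side (h f : ℕ → ℕ) (b : Bool) : Set ℕ := {x | ∃ t, f t = x ∧ sd h f t = b}

theorem S_inj {j s : ℕ} (hi : Inj h f j s) : S h f j (s + 1) = (0, 0, []) := by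
  have h1 : S h f j (s + 1) = stp h j (D h f s) (f s) (sd h f s) (S h f j s) := rfl
  have h2 : sd h f s = j.bodd ∧ f s < (S h f j s).2.1 := hi
  rw [h1, stp, if_pos h2]

theorem S_act {j s : ℕ} (hi : ¬ Inj h f j s) (ha : Act h f j s) :
    S h f j (s + 1) = ((S h f j s).1 + 1, max (S h f j s).2.1 (f s),
      upd (lseg (!j.bodd) (D h f s) (f s)) (S h f j s).2.2 ((S h f j s).1 + 1)) := by
  have h1 : S h f j (s + 1) = stp h j (D h f s) (f s) (sd h f s) (S h f j s) := rfl
  have h2 : ¬ (sd h f s = j.bodd ∧ f s < (S h f j s).2.1) := hi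
  have h3 : act h j (D h f s) (f s) (S h f j s) := ha
  rw [h1, stp, if_neg h2, if_pos h3]

theorem S_no {j s : ℕ} (hi : ¬ Inj h f j s) (ha : ¬ Act h f j s) :
    S h f j (s + 1) = S h f j s := by
  have h1 : S h f j (s + 1) = stp h j (D h f s) (f s) (sd h f s) (S h f j s) := rfl
  have h2 : ¬ (sd h f s = j.bodd ∧ f s < (S h f j s).2.1) := hi
  have h3 : ¬ act h j (D h f s) (f s) (S h f j s) := ha
  rw [h1, stp, if_neg h2, if_neg h3]

@[simp] theorem length_D (s : ℕ) : (D h f s).length = s := by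
  induction s with
  | zero => rfl
  | succ s ih => simp [D, ih]

theorem mem_D {s x : ℕ} {b : Bool} : (x, b) ∈ D h f s ↔ ∃ t < s, f t = x ∧ sd h f t = b := by
  induction s with
  | zero => simp [D]
  | succ s ih =>
    rw [D, List.mem_cons, ih]
    constructor
    · rintro (h1 | ⟨t, ht, h1⟩)
      · rw [Prod.mk.injEq] at h1
        exact ⟨s, Nat.lt_succ_self s, h1.1.symm, h1.2.symm⟩
      · exact ⟨t, by omega, h1⟩
    · rintro ⟨t, ht, h1, h2⟩
      rcases Nat.lt_succ_iff_lt_or_eq.1 ht with h3 | h3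
      · exact Or.inr ⟨t, h3, h1, h2⟩
      · subst h3
        exact Or.inl (Prod.ext h1.symm h2.symm)

theorem mem_side_iff {b : Bool} {s i : ℕ} (hu : ∀ t, s ≤ t → i < f t) :
    (i, b) ∈ D h f s ↔ i ∈ side h f b := by
  rw [mem_D]
  constructor
  · rintro ⟨t, _, h1, h2⟩
    exact ⟨t, h1, h2⟩
  · rintro ⟨t, h1, h2⟩
    refine ⟨t, ?_, h1, h2⟩
    by_contra h3
    push Not at h3
    have := hu t h3
    omega

theorem lseg_D {b : Bool} {s u : ℕ} (hu : ∀ t, s ≤ t → u ≤ f t) :
    lseg b (D h f s) u = seg (side h f b) u :=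
  lseg_eq_seg fun _ hi => mem_side_iff fun t ht => lt_of_lt_of_le hi (hu t ht)

theorem lseg_succ {b : Bool} {s u : ℕ} (hu : ¬ (sd h f s = b ∧ f s < u)) :
    lseg b (D h f (s + 1)) u = lseg b (D h f s) u := by
  apply lseg_congr
  intro i hi
  rw [D, List.mem_cons]
  constructor
  · rintro (h1 | h1)
    · rw [Prod.mk.injEq] at h1
      exact absurd ⟨h1.2.symm, by rw [← h1.1]; exact hi⟩ hu
    · exact h1
  · exact Or.inr

/-- the protected computations exist -/
theorem inv1 (j s : ℕ) : ∀ q ∈ (S h f j s).2.2,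
    (run j.div2 (lseg j.bodd (D h f s) (S h f j s).2.1) (Nat.pair q.1 q.2)).isSome = true := by
  induction s with
  | zero => intro q hq; exact absurd hq (by simp [S, D, st])
  | succ s ih =>
    by_cases hi : Inj h f j s
    · intro q hq
      rw [S_inj hi] at hq
      simp at hq
    · have hpres : ∀ q ∈ (S h f j s).2.2, (run j.div2 (lseg j.bodd (D h f (s + 1))
          (S h f j s).2.1) (Nat.pair q.1 q.2)).isSome = true := by
        intro q hq
        rw [lseg_succ hi]
        exact ih q hq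
      by_cases ha : Act h f j s
      · intro q hq
        rw [S_act hi ha] at hq ⊢
        simp only at hq ⊢
        rw [mem_upd] at hq
        rcases hq with hq | ⟨hq1, hq2⟩
        · obtain ⟨v, hv⟩ := Option.isSome_iff_exists.1 (hpres q hq)
          rw [run_mono (lseg_prefix _ _ (le_max_left _ (f s))) hv]
          rfl
        · rcases ha q.1 hq1 with h1 | ⟨h1, _⟩
          · rw [hq2] at h1; simp at h1
          · rw [hq2] at h1
            simp only [Option.getD_some] at h1
            have h2 : lseg j.bodd (D h f (s + 1)) (f s) = lseg j.bodd (D h f s) (f s) :=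
              lseg_succ (by simp)
            obtain ⟨v, hv⟩ := Option.isSome_iff_exists.1 h1
            rw [← h2] at hv
            rw [run_mono (lseg_prefix _ _ (le_max_right (S h f j s).2.1 (f s))) hv]
            rfl
      · rw [S_no hi ha]
        exact hpres

/-- the number of protected pairs is bounded -/
theorem inv2 (j s : ℕ) : (S h f j s).2.2.Nodup ∧ ∀ m, cnt (S h f j s).2.2 m ≤ h m := by
  induction s with
  | zero => simp [S, D, st, cnt]
  | succ s ih =>
    by_cases hi : Inj h f j s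
    · rw [S_inj hi]
      simp [cnt]
    · by_cases ha : Act h f j s
      · rw [S_act hi ha]
        refine ⟨upd_nodup ih.1 _, fun m => cnt_upd ih.1 (ih.2 m) ?_⟩
        intro hm v hv
        rcases ha m hm with h1 | ⟨_, h1⟩
        · rw [hv] at h1; simp at h1
        · rw [hv] at h1; exact h1
      · rw [S_no hi ha]
        exact ih

theorem exists_dec {j s : ℕ} (hj : j < s) (hr : f s < (S h f j s).2.1) :
    ∃ i ≤ j, f s < (S h f i s).2.1 ∧ sd h f s = !i.bodd := by
  set p : ℕ → Bool := fun j => decide (f s < (st h j (D h f s)).2.1) with hp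
  have hpi : ∀ i, p i = true ↔ f s < (S h f i s).2.1 := by
    intro i
    rw [hp]
    exact decide_eq_true_iff
  have hj2 : ∃ x ∈ List.range s, p x = true := ⟨j, List.mem_range.2 hj, (hpi j).2 hr⟩
  have h1 : (List.range s).findIdx p < (List.range s).length :=
    List.findIdx_lt_length_of_exists hj2
  refine ⟨(List.range s).findIdx p, ?_, ?_, ?_⟩
  · by_contra h2
    push Not at h2
    have h3 := List.not_of_lt_findIdx h2
    rw [List.getElem_range, ← Bool.not_eq_true, hpi] at h3
    exact h3 hr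
  · have h3 := List.findIdx_getElem (w := h1)
    rw [List.getElem_range, hpi] at h3
    exact h3
  · unfold sd dec
    rw [length_D]

theorem eventually_ge (hf : Function.Injective f) (R : ℕ) : ∃ s₀, ∀ s, s₀ ≤ s → R ≤ f s := by
  have h1 : {s | f s < R}.Finite := Set.Finite.preimage hf.injOn (Set.finite_lt_nat R)
  obtain ⟨b, hb⟩ := h1.bddAbove
  refine ⟨b + 1, fun s hs => ?_⟩
  by_contra h2
  push Not at h2
  have := hb h2
  omega

/-- a requirement is injured only finitely often if the stronger ones have bounded restraints -/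
theorem exists_no_inj (hf : Function.Injective f) (j : ℕ)
    (hb : ∀ i < j, ∃ R, ∀ s, (S h f i s).2.1 ≤ R) : ∃ s₀, ∀ s, s₀ ≤ s → ¬ Inj h f j s := by
  have h1 : ∃ R, ∀ i < j, ∀ s, (S h f i s).2.1 ≤ R := by
    choose! R hR using hb
    refine ⟨(Finset.range j).sup R, fun i hi s => (hR i hi s).trans ?_⟩
    exact Finset.le_sup (f := R) (Finset.mem_range.2 hi)
  obtain ⟨R, hR⟩ := h1
  obtain ⟨s₀, hs⟩ := eventually_ge hf R
  refine ⟨max s₀ (j + 1), fun s hs1 hi => ?_⟩
  have h2 : s₀ ≤ s := (le_max_left _ _).trans hs1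
  have h3 : j + 1 ≤ s := (le_max_right _ _).trans hs1
  obtain ⟨i, hij, hi1, hi2⟩ := exists_dec (by omega) hi.2
  rcases Nat.lt_or_ge i j with h4 | h4
  · have := hR i h4 s
    have := hs s h2
    omega
  · have : i = j := by omega
    subst this
    rw [hi.1] at hi2
    cases i.bodd <;> simp at hi2

/-! ### Behaviour without injuries -/

section

variable {j s₀ : ℕ} (hn : ∀ s, s₀ ≤ s → ¬ Inj h f j s)

include hn

theorem mono_step {s : ℕ} (hs : s₀ ≤ s) : (S h f j s).1 ≤ (S h f j (s + 1)).1 ∧
    (S h f j s).2.1 ≤ (S h f j (s + 1)).2.1 ∧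
    ∀ q ∈ (S h f j s).2.2, q ∈ (S h f j (s + 1)).2.2 := by
  by_cases ha : Act h f j s
  · rw [S_act (hn s hs) ha]
    exact ⟨Nat.le_succ _, le_max_left _ _, fun q hq => mem_upd.2 (Or.inl hq)⟩
  · rw [S_no (hn s hs) ha]
    exact ⟨le_refl _, le_refl _, fun q hq => hq⟩

theorem mono {s t : ℕ} (hs : s₀ ≤ s) (hst : s ≤ t) : (S h f j s).1 ≤ (S h f j t).1 ∧
    (S h f j s).2.1 ≤ (S h f j t).2.1 ∧
    ∀ q ∈ (S h f j s).2.2, q ∈ (S h f j t).2.2 := by
  induction t, hst using Nat.le_induction with
  | base => exact ⟨le_refl _, le_refl _, fun q hq => hq⟩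
  | succ t ht ih =>
    have := mono_step hn (hs.trans ht)
    exact ⟨ih.1.trans this.1, ih.2.1.trans this.2.1, fun q hq => this.2.2 q (ih.2.2 q hq)⟩

/-- the protected side is preserved below the restraint -/
theorem preserved {s : ℕ} (hs : s₀ ≤ s) {i : ℕ} (hi : i < (S h f j s).2.1) :
    (i, j.bodd) ∈ D h f s ↔ i ∈ side h f j.bodd := by
  rw [mem_D]
  constructor
  · rintro ⟨t, _, h1, h2⟩
    exact ⟨t, h1, h2⟩
  · rintro ⟨t, h1, h2⟩
    refine ⟨t, ?_, h1, h2⟩
    by_contra h3
    push Not at h3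
    refine hn t (hs.trans h3) ⟨h2, ?_⟩
    rw [h1]
    exact hi.trans_le (mono hn hs h3).2.1

theorem lseg_preserved {s u : ℕ} (hs : s₀ ≤ s) (hu : u ≤ (S h f j s).2.1) :
    lseg j.bodd (D h f s) u = seg (side h f j.bodd) u :=
  lseg_eq_seg fun _ hi => preserved hn hs (hi.trans_le hu)

end

end Pool.Agent.V8H40.SJ
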